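import Pool.Agent.TH941.Newform

/-! Job RZ-A (helper883 for helper942): the partial sums of the Fourier coefficients of a cusp form
of weight `2` are `O(x log x)`. -/

set_option autoImplicit false

namespace Pool.Agent.TH942.RZ

open CongruenceSubgroup Pool.Agent.TH941
open scoped MatrixGroups
open Pool.Agent.W165.RS (ac)

namespace PSum

open MeasureTheory Function.Periodic

/-- `1 / q` on the horocycle of height `y` -/
theorem inv_q (x y : ℝ) : (1 / qParam 1 ((x : ℂ) + y * Complex.I) : ℂ) =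
    ((Real.exp (2 * Real.pi * y) : ℝ) : ℂ) *
      ((Real.cos (2 * Real.pi * x) : ℝ) - (Real.sin (2 * Real.pi * x) : ℝ) * Complex.I) := by
  unfold qParam
  rw [one_div, ← Complex.exp_neg]
  have h1 : -(2 * Real.pi * Complex.I * ((x : ℂ) + y * Complex.I) / ((1 : ℝ) : ℂ)) =
      ((2 * Real.pi * y : ℝ) : ℂ) + ((-(2 * Real.pi * x) : ℝ) : ℂ) * Complex.I := by
    have hI : Complex.I ^ 2 = -1 := Complex.I_sq
    push_cast
    linear_combination (-2 * Real.pi * y : ℂ) * hI
  rw [h1, Complex.exp_add, Complex.exp_mul_I, ← Complex.ofReal_exp, ← Complex.ofReal_cos,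
    ← Complex.ofReal_sin, Real.cos_neg, Real.sin_neg]
  push_cast
  ring

theorem sin_lower {x : ℝ} (h0 : 0 ≤ x) (h1 : x ≤ 1) :
    2 * min x (1 - x) ≤ Real.sin (Real.pi * x) := by
  have hpi := Real.pi_pos
  have key : ∀ t : ℝ, 0 ≤ t → t ≤ 1 / 2 → 2 * t ≤ Real.sin (Real.pi * t) := by
    intro t ht0 ht1
    have := Real.mul_le_sin (x := Real.pi * t) (by positivity) (by nlinarith)
    have h2 : 2 / Real.pi * (Real.pi * t) = 2 * t := by field_simp
    rw [h2] at this
    exact this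
  rcases le_total x (1 / 2) with h | h
  · have := key x h0 h
    have h3 : min x (1 - x) ≤ x := min_le_left _ _
    linarith
  · have := key (1 - x) (by linarith) (by linarith)
    have h3 : min x (1 - x) ≤ 1 - x := min_le_right _ _
    have h4 : Real.sin (Real.pi * (1 - x)) = Real.sin (Real.pi * x) := by
      rw [show Real.pi * (1 - x) = Real.pi - Real.pi * x by ring, Real.sin_pi_sub]
    rw [h4] at this
    linarith

theorem norm_sub_one {x y : ℝ} (h0 : 0 ≤ x) (h1 : x ≤ 1) (hy : 0 ≤ y) :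
    4 * min x (1 - x) ≤ ‖(1 / qParam 1 ((x : ℂ) + y * Complex.I) : ℂ) - 1‖ := by
  have hm0 : 0 ≤ min x (1 - x) := le_min h0 (by linarith)
  rw [inv_q]
  set r : ℝ := Real.exp (2 * Real.pi * y) with hr
  have hr1 : 1 ≤ r := Real.one_le_exp (by positivity)
  have hs := sin_lower h0 h1
  have hns : Complex.normSq ((r : ℂ) * (((Real.cos (2 * Real.pi * x) : ℝ) : ℂ) -
      ((Real.sin (2 * Real.pi * x) : ℝ) : ℂ) * Complex.I) - 1) =
      r ^ 2 - 2 * r * Real.cos (2 * Real.pi * x) + 1 := by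
    rw [Complex.normSq_apply]
    have e1 : ((r : ℂ) * (((Real.cos (2 * Real.pi * x) : ℝ) : ℂ) -
      ((Real.sin (2 * Real.pi * x) : ℝ) : ℂ) * Complex.I) - 1).re =
        r * Real.cos (2 * Real.pi * x) - 1 := by
      simp [Complex.sub_re, Complex.mul_re, -Complex.ofReal_cos, -Complex.ofReal_sin]
    have e2 : ((r : ℂ) * (((Real.cos (2 * Real.pi * x) : ℝ) : ℂ) -
      ((Real.sin (2 * Real.pi * x) : ℝ) : ℂ) * Complex.I) - 1).im =
        - (r * Real.sin (2 * Real.pi * x)) := by
      simp [Complex.sub_im, Complex.mul_im, -Complex.ofReal_cos, -Complex.ofReal_sin]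
    rw [e1, e2]
    have := Real.sin_sq_add_cos_sq (2 * Real.pi * x)
    linear_combination r ^ 2 * this
  have hcos : Real.cos (2 * Real.pi * x) = 1 - 2 * Real.sin (Real.pi * x) ^ 2 := by
    rw [show 2 * Real.pi * x = 2 * (Real.pi * x) by ring, Real.cos_two_mul]
    have := Real.sin_sq_add_cos_sq (Real.pi * x)
    linarith
  have hc1 := Real.cos_le_one (2 * Real.pi * x)
  rw [Complex.norm_def, hns]
  apply Real.le_sqrt_of_sq_le
  have h5 : (4 * min x (1 - x)) ^ 2 ≤ 4 * Real.sin (Real.pi * x) ^ 2 := by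
    have : (2 * min x (1 - x)) ^ 2 ≤ Real.sin (Real.pi * x) ^ 2 :=
      pow_le_pow_left₀ (by positivity) hs 2
    nlinarith
  have h6 : 0 ≤ (r - 1) * (r + 1 - 2 * Real.cos (2 * Real.pi * x)) :=
    mul_nonneg (by linarith) (by linarith)
  nlinarith

theorem norm_inv_q (x y : ℝ) : ‖(1 / qParam 1 ((x : ℂ) + y * Complex.I) : ℂ)‖ =
    Real.exp (2 * Real.pi * y) := by
  rw [norm_div, norm_one, norm_qParam, one_div, ← Real.exp_neg]
  congr 1
  simp

/-- the kernel -/
theorem kernel {x L : ℝ} {M : ℕ} (h0 : 0 ≤ x) (h1 : x ≤ 1) (hL : L = (M : ℝ) + 1) :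
    ‖∑ n ∈ Finset.range (M + 1), (1 / qParam 1 ((x : ℂ) + ((1 / L : ℝ) : ℂ) * Complex.I)) ^ n‖ ≤
      3 / 2 * Real.exp (2 * Real.pi) * (L / (1 + L * x) + L / (1 + L * (1 - x))) := by
  have hL0 : 0 < L := by rw [hL]; positivity
  set z : ℂ := 1 / qParam 1 ((x : ℂ) + ((1 / L : ℝ) : ℂ) * Complex.I) with hz
  have hzn : ‖z‖ = Real.exp (2 * Real.pi * (1 / L)) := norm_inv_q x (1 / L)
  have hz1 : 1 ≤ ‖z‖ := by rw [hzn]; exact Real.one_le_exp (by positivity)
  have hzM : ‖z‖ ^ (M + 1) = Real.exp (2 * Real.pi) := by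
    rw [hzn, ← Real.exp_nat_mul]
    congr 1
    push_cast
    rw [← hL]
    field_simp
  have hE1 : 1 ≤ Real.exp (2 * Real.pi) := Real.one_le_exp (by positivity)
  set E := Real.exp (2 * Real.pi) with hE
  set D : ℂ := ∑ n ∈ Finset.range (M + 1), z ^ n with hD
  set m : ℝ := min x (1 - x) with hm
  have hm0 : 0 ≤ m := le_min h0 (by linarith)
  have hA : ‖D‖ ≤ L * E := by
    refine (norm_sum_le _ _).trans ?_
    have : ∀ n ∈ Finset.range (M + 1), ‖z ^ n‖ ≤ E := by
      intro n hn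
      rw [norm_pow, ← hzM]
      exact pow_le_pow_right₀ hz1 (Finset.mem_range.1 hn).le
    refine (Finset.sum_le_sum this).trans ?_
    rw [Finset.sum_const, Finset.card_range, nsmul_eq_mul]
    push_cast
    rw [← hL]
  have hB : ‖D‖ * (4 * m) ≤ 2 * E := by
    have h2 : ‖D‖ * ‖z - 1‖ ≤ E + 1 := by
      rw [← norm_mul, hD, geom_sum_mul]
      refine (norm_sub_le _ _).trans ?_
      rw [norm_pow, hzM, norm_one]
    have h3 : 4 * m ≤ ‖z - 1‖ := norm_sub_one h0 h1 (by positivity)
    have h4 : ‖D‖ * (4 * m) ≤ ‖D‖ * ‖z - 1‖ := mul_le_mul_of_nonneg_left h3 (norm_nonneg _)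
    linarith
  have hC : ‖D‖ * (1 + L * m) ≤ 3 / 2 * E * L := by
    have : ‖D‖ * (1 + L * m) = ‖D‖ + L / 4 * (‖D‖ * (4 * m)) := by ring
    rw [this]
    have h5 : L / 4 * (‖D‖ * (4 * m)) ≤ L / 4 * (2 * E) :=
      mul_le_mul_of_nonneg_left hB (by positivity)
    nlinarith
  have hpos : 0 < 1 + L * m := by positivity
  have h6 : ‖D‖ ≤ 3 / 2 * E * (L / (1 + L * m)) := by
    rw [← mul_div_assoc, le_div_iff₀ hpos]
    exact hC
  refine h6.trans (mul_le_mul_of_nonneg_left ?_ (by positivity))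
  have h1x : 0 ≤ 1 - x := by linarith
  have ha : 0 ≤ L / (1 + L * x) := by positivity
  have hb : 0 ≤ L / (1 + L * (1 - x)) := by positivity
  rcases min_choice x (1 - x) with h | h
  · rw [hm, h]; linarith
  · rw [hm, h]; linarith

theorem integral_log {L : ℝ} (hL : 0 < L) :
    ∫ x in (0 : ℝ)..1, L / (1 + L * x) = Real.log (1 + L) := by
  have h1 : ∀ x ∈ Set.uIcc (0 : ℝ) 1, HasDerivAt (fun x : ℝ => Real.log (1 + L * x))
      (L / (1 + L * x)) x := by
    intro x hx
    rw [Set.uIcc_of_le zero_le_one] at hx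
    have hpos : 0 < 1 + L * x := by have := hx.1; positivity
    have h2 : HasDerivAt (fun x : ℝ => 1 + L * x) L x := by
      simpa using ((hasDerivAt_id x).const_mul L).const_add 1
    exact h2.log hpos.ne'
  rw [intervalIntegral.integral_eq_sub_of_hasDerivAt h1]
  · simp
  · apply ContinuousOn.intervalIntegrable
    apply ContinuousOn.div continuousOn_const (by fun_prop)
    intro x hx
    rw [Set.uIcc_of_le zero_le_one] at hx
    have hpos : 0 < 1 + L * x := by have := hx.1; positivity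
    exact hpos.ne'

theorem integral_log' {L : ℝ} (hL : 0 < L) :
    ∫ x in (0 : ℝ)..1, L / (1 + L * (1 - x)) = Real.log (1 + L) := by
  have := intervalIntegral.integral_comp_sub_left (a := 0) (b := 1)
    (fun x : ℝ => L / (1 + L * x)) 1
  rw [this]
  simpa using integral_log hL

theorem int1 {L : ℝ} (hL : 0 < L) :
    IntervalIntegrable (fun x : ℝ => L / (1 + L * x)) volume 0 1 := by
  apply ContinuousOn.intervalIntegrable
  apply ContinuousOn.div continuousOn_const (by fun_prop)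
  intro x hx
  rw [Set.uIcc_of_le zero_le_one] at hx
  have hpos : 0 < 1 + L * x := by have := hx.1; positivity
  exact hpos.ne'

theorem int2 {L : ℝ} (hL : 0 < L) :
    IntervalIntegrable (fun x : ℝ => L / (1 + L * (1 - x))) volume 0 1 := by
  apply ContinuousOn.intervalIntegrable
  apply ContinuousOn.div continuousOn_const (by fun_prop)
  intro x hx
  rw [Set.uIcc_of_le zero_le_one] at hx
  have h1 : 0 ≤ 1 - x := by linarith [hx.2]
  have hpos : 0 < 1 + L * (1 - x) := by positivity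
  exact hpos.ne'

end PSum

open Pool.Agent.TH942.RZ.PSum Function.Periodic in
/-- the partial sums of the coefficients of a cusp form of weight 2 -/
theorem partial_sum_bound {N : ℕ} [NeZero N]
    (f : CuspForm (Gamma0 N : Subgroup (GL (Fin 2) ℝ)) 2) :
    ∃ C : ℝ, 0 ≤ C ∧ ∀ M : ℕ, ‖∑ n ∈ Finset.range (M + 1), ac f n‖ ≤
      C * ((M : ℝ) + 1) * (1 + Real.log ((M : ℝ) + 1)) := by
  obtain ⟨C₀, hC₀⟩ := CuspFormClass.exists_bound (k := 2)
    (Γ := (Gamma0 N : Subgroup (GL (Fin 2) ℝ))) f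
  set C : ℝ := |C₀| with hC
  have hb : ∀ τ : UpperHalfPlane, ‖f τ‖ ≤ C / τ.im := by
    intro τ
    have h := hC₀ τ
    have e : (((2 : ℤ) : ℝ) / 2 : ℝ) = 1 := by norm_num
    rw [e, Real.rpow_one] at h
    exact h.trans (div_le_div_of_nonneg_right (le_abs_self _) τ.im_pos.le)
  refine ⟨3 * Real.exp (2 * Real.pi) * C, by positivity, fun M => ?_⟩
  set L : ℝ := (M : ℝ) + 1 with hL
  have hL1 : 1 ≤ L := by rw [hL]; have : (0 : ℝ) ≤ M := Nat.cast_nonneg M; linarith
  have hL0 : 0 < L := by linarith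
  have hyp : 0 < 1 / L := by positivity
  have hac : ∀ n : ℕ, ac f n = ∫ u in (0 : ℝ)..1,
      (1 / qParam 1 ((u : ℂ) + ((1 / L : ℝ) : ℂ) * Complex.I)) ^ n *
        f ⟨(u : ℂ) + ((1 / L : ℝ) : ℂ) * Complex.I, by simpa using hyp⟩ := by
    intro n
    unfold ac
    rw [ModularFormClass.qExpansion_coeff_eq_intervalIntegral
      (Γ := (Gamma0 N : Subgroup (GL (Fin 2) ℝ))) (k := 2) f one_pos
      Pool.Agent.W165.RS.one_mem0 n hyp]
    rw [Complex.ofReal_one, div_one, one_mul]
    refine intervalIntegral.integral_congr fun u _ => ?_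
    simp only [one_div, inv_pow]
  have hcont : Continuous fun u : ℝ =>
      f ⟨(u : ℂ) + ((1 / L : ℝ) : ℂ) * Complex.I, by simpa using hyp⟩ := by
    fun_prop
  have hq : Continuous fun u : ℝ =>
      (1 / qParam 1 ((u : ℂ) + ((1 / L : ℝ) : ℂ) * Complex.I)) := by
    fun_prop (disch := simp [qParam_ne_zero])
  have hsum : ∑ n ∈ Finset.range (M + 1), ac f n = ∫ u in (0 : ℝ)..1,
      (∑ n ∈ Finset.range (M + 1),
        (1 / qParam 1 ((u : ℂ) + ((1 / L : ℝ) : ℂ) * Complex.I)) ^ n) *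
        f ⟨(u : ℂ) + ((1 / L : ℝ) : ℂ) * Complex.I, by simpa using hyp⟩ := by
    rw [Finset.sum_congr rfl fun n _ => hac n, ← intervalIntegral.integral_finsetSum]
    · refine intervalIntegral.integral_congr fun u _ => ?_
      simp only [Finset.sum_mul]
    · intro n _
      exact ((hq.pow n).mul hcont).intervalIntegrable _ _
  rw [hsum]
  refine (intervalIntegral.norm_integral_le_integral_norm zero_le_one).trans ?_
  have hbound : ∀ u ∈ Set.Icc (0 : ℝ) 1, ‖(∑ n ∈ Finset.range (M + 1),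
        (1 / qParam 1 ((u : ℂ) + ((1 / L : ℝ) : ℂ) * Complex.I)) ^ n) *
        f ⟨(u : ℂ) + ((1 / L : ℝ) : ℂ) * Complex.I, by simpa using hyp⟩‖ ≤
      3 / 2 * Real.exp (2 * Real.pi) * (C * L) *
        (L / (1 + L * u) + L / (1 + L * (1 - u))) := by
    intro u hu
    have h1 := kernel (M := M) hu.1 hu.2 hL
    have h2 : ‖f ⟨(u : ℂ) + ((1 / L : ℝ) : ℂ) * Complex.I, by simpa using hyp⟩‖ ≤ C * L := by
      refine (hb _).trans (le_of_eq ?_)
      have e2 : (⟨(u : ℂ) + ((1 / L : ℝ) : ℂ) * Complex.I, by simpa using hyp⟩ :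
          UpperHalfPlane).im = 1 / L := by
        simp [UpperHalfPlane.im]
      rw [e2]
      field_simp
    rw [norm_mul]
    refine (mul_le_mul h1 h2 (norm_nonneg _) (le_trans (norm_nonneg _) h1)).trans (le_of_eq ?_)
    ring
  have hint : IntervalIntegrable (fun u : ℝ => 3 / 2 * Real.exp (2 * Real.pi) * (C * L) *
        (L / (1 + L * u) + L / (1 + L * (1 - u)))) MeasureTheory.volume 0 1 :=
    ((int1 hL0).add (int2 hL0)).const_mul _
  refine (intervalIntegral.integral_mono_on zero_le_one ?_ hint hbound).trans ?_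
  · apply Continuous.intervalIntegrable
    refine Continuous.norm ((continuous_finsetSum _ fun n _ => hq.pow n).mul hcont)
  · rw [intervalIntegral.integral_const_mul, intervalIntegral.integral_add (int1 hL0) (int2 hL0),
      integral_log hL0, integral_log' hL0]
    have hlog : Real.log (1 + L) ≤ 1 + Real.log L := by
      have h1 : 1 + L ≤ Real.exp 1 * L := by
        have := Real.add_one_le_exp (1 : ℝ)
        nlinarith
      calc Real.log (1 + L) ≤ Real.log (Real.exp 1 * L) := Real.log_le_log (by positivity) h1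
        _ = 1 + Real.log L := by
          rw [Real.log_mul (Real.exp_pos 1).ne' hL0.ne', Real.log_exp]
    have hc : 0 ≤ 3 * Real.exp (2 * Real.pi) * C * L := by positivity
    calc 3 / 2 * Real.exp (2 * Real.pi) * (C * L) * (Real.log (1 + L) + Real.log (1 + L)) =
        3 * Real.exp (2 * Real.pi) * C * L * Real.log (1 + L) := by ring
      _ ≤ 3 * Real.exp (2 * Real.pi) * C * L * (1 + Real.log L) :=
        mul_le_mul_of_nonneg_left hlog hc

end Pool.Agent.TH942.RZ
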