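import Pool.Agent.TH942.RZ.Back
import Pool.Agent.TH942.Lead

/-!
# The leading coefficient is real
-/

set_option autoImplicit false

open Filter Topology Classical
open Pool.Agent.W263.BSD

namespace Pool.Agent.TH942.RZ

variable {a b : ℤ} {F : ℂ → ℂ}

lemma small_real {w : ℝ} (hw : 0 ≤ w) : ∃ y : ℝ, 0 < y ∧ small a b w = y := by
  unfold small
  have : ∀ s : Finset ℕ, ∃ y : ℝ, 0 < y ∧
      (∏ p ∈ s, if GoodPrime a b p then ef a b p w else 1) = (y : ℂ) := by
    intro s
    induction s using Finset.induction_on with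
    | empty => exact ⟨1, one_pos, by simp⟩
    | insert p s hps ih =>
      obtain ⟨y, hy, he⟩ := ih
      rw [Finset.prod_insert hps, he]
      split_ifs with hg
      · obtain ⟨z, hz, he'⟩ := ef_real_pos (a := a) (b := b) hg.1 hw
        exact ⟨z * y, mul_pos hz hy, by rw [he']; push_cast; ring⟩
      · exact ⟨y, hy, by rw [one_mul]⟩
  exact this _

/-- `F` is real on the real axis to the right of `1` -/
theorem F_real (hF : IsLSeries a b F) {w : ℝ} (hw : 0 ≤ w) : ∃ y : ℝ, F (1 + w) = y := by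
  obtain ⟨y, hy, he⟩ := small_real (a := a) (b := b) hw
  have h := LS.PhiF_eq_re hF w
  have hyc : (y : ℂ) ≠ 0 := by exact_mod_cast hy.ne'
  refine ⟨(PhiF a b F w).re / y, ?_⟩
  rw [Complex.ofReal_div, ← h, eq_div_iff hyc]
  unfold PhiF
  rw [he]

/-- the leading coefficient is a nonzero real number -/
theorem coeff_real (hF : IsLSeries a b F) {m : ℕ} (hm : analyticOrderAt F 1 = m) :
    ∃ A : ℝ, A ≠ 0 ∧ iteratedDeriv m F 1 / (m.factorial : ℂ) = (A : ℂ) := by
  obtain ⟨h1, h2⟩ := TH942.lead_lim hF.1 hm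
  set c := iteratedDeriv m F 1 / (m.factorial : ℂ) with hc
  have h3 : c.im = 0 := by
    have h4 : Tendsto (fun s : ℝ => (F (1 + s) / (s : ℂ) ^ m).im) (𝓝[>] 0) (𝓝 c.im) :=
      (Complex.continuous_im.tendsto _).comp h2
    have h5 : Tendsto (fun s : ℝ => (F (1 + s) / (s : ℂ) ^ m).im) (𝓝[>] 0) (𝓝 0) := by
      refine tendsto_const_nhds.congr' ?_
      filter_upwards [self_mem_nhdsWithin] with s hs
      obtain ⟨y, hy⟩ := F_real hF (le_of_lt hs : (0 : ℝ) ≤ s)
      rw [hy, ← Complex.ofReal_pow, ← Complex.ofReal_div, Complex.ofReal_im]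
    exact tendsto_nhds_unique h4 h5
  have h6 : c = (c.re : ℂ) := by
    apply Complex.ext
    · simp
    · simpa using h3
  refine ⟨c.re, fun h => h1 ?_, h6⟩
  rw [h6, h, Complex.ofReal_zero]

end Pool.Agent.TH942.RZ
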