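import Pool.Agent.TH942.RZ.Curve

/-!
# Zeros make the Riesz means large
-/

set_option autoImplicit false

namespace Pool.Agent.TH942.RZ

open MeasureTheory Filter Topology Set Classical
open Pool.Agent.W263.BSD Pool.Agent.W189.ML Pool.Agent.W187.UR
open Pool.Agent.TH942.LS (lm cE dat cont Kf Cont Dat lm_eq cE_eq cf_ne S Wt S_finite)
open Pool.Agent.TH942.SL

variable {a b : ℤ} {F : ℂ → ℂ}

/-- zeros make the Riesz means large -/
theorem riesz_omega (hF : IsLSeries a b F) {k : ℝ} (hk : 0 < k) {s : ℂ} (hs : 1 < s.re)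
    (h0 : F s = 0) {α : ℝ} (hα : α < s.re - 1) (C : ℝ) :
    ∃ᶠ X : ℝ in atTop, C * X ^ α < |rz a b k X| := by
  rw [Filter.Frequently]
  intro hne
  refine TH942.LS.omega hF (rzv_Wt hk) rzv_top hs h0 (α := α) (by linarith) (C := C) ?_
  filter_upwards [hne, eventually_gt_atTop 1] with X h1 h2
  rw [not_lt, rz_eq hk h2, ← S_rzv hk (Real.log_pos h2),
    S_finite (a := a) (b := b) (rzv k) (rzv_Wt hk) h2] at h1
  exact h1

/-- a subpolynomial bound gives the half plane -/
theorem zero_free_of_bound (hF : IsLSeries a b F) {k : ℝ} (hk : 0 < k)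
    (h : ∀ ε : ℝ, 0 < ε → ∃ C : ℝ, ∀ᶠ X : ℝ in atTop, |rz a b k X| ≤ C * X ^ ε) :
    ∀ s : ℂ, 1 < s.re → F s ≠ 0 := by
  intro s hs h0
  obtain ⟨C, hC⟩ := h ((s.re - 1) / 2) (by linarith)
  obtain ⟨X, h1, h2⟩ := ((riesz_omega hF hk hs h0 (α := (s.re - 1) / 2) (by linarith)
    C).and_eventually hC).exists
  exact not_lt.2 h2 h1

/-- a bound by `log log X` gives the half plane -/
theorem zero_free_of_loglog (hF : IsLSeries a b F) {k : ℝ} (hk : 0 < k) {K : ℝ}
    (h : ∀ᶠ X : ℝ in atTop, |rz a b k X| ≤ K * Real.log (Real.log X)) :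
    ∀ s : ℂ, 1 < s.re → F s ≠ 0 := by
  refine zero_free_of_bound hF hk fun ε hε => ⟨|K| / ε, ?_⟩
  filter_upwards [h, eventually_ge_atTop (Real.exp 1)] with X h1 h2
  have hX1 : 1 < X := by
    have := Real.exp_one_gt_d9
    linarith
  have hX0 : 0 < X := by linarith
  have hl1 : 1 ≤ Real.log X := by rwa [Real.le_log_iff_exp_le hX0]
  have e1 : Real.log (Real.log X) ≤ Real.log X - 1 := Real.log_le_sub_one_of_pos (by linarith)
  have e2 := Real.log_le_rpow_div hX0.le hε
  have e3 : 0 ≤ Real.log (Real.log X) := Real.log_nonneg hl1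
  calc |rz a b k X| ≤ K * Real.log (Real.log X) := h1
    _ ≤ |K| * Real.log (Real.log X) := mul_le_mul_of_nonneg_right (le_abs_self K) e3
    _ ≤ |K| * (X ^ ε / ε) := mul_le_mul_of_nonneg_left (by linarith) (abs_nonneg K)
    _ = _ := by ring

end Pool.Agent.TH942.RZ
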