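import Pool.Agent.TH942.SL.Wt
import Pool.Agent.TH942.SL.Prim

/-!
# The logarithm of the continuation on the half plane
-/

set_option autoImplicit false

open MeasureTheory Filter Topology Set Complex
open Pool.Agent.TH942.LS (Dat)
open Pool.Agent.TH942.SL

namespace Pool.Agent.TH942.RZ

/-- the half plane `Re s > x` -/
def HP (x : ℝ) : Set ℂ := {s : ℂ | x < s.re}

lemma HP_open (x : ℝ) : IsOpen (HP x) := isOpen_lt continuous_const Complex.continuous_re

lemma HP_convex (x : ℝ) : Convex ℝ (HP x) := convex_halfSpace_re_gt x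

/-- a function with vanishing derivative on a convex open set is constant -/
lemma eq_of_deriv_zero {U : Set ℂ} (hc : Convex ℝ U) {f : ℂ → ℂ}
    (hf : ∀ z ∈ U, HasDerivAt f 0 z) {z w : ℂ} (hz : z ∈ U) (hw : w ∈ U) : f z = f w := by
  have h := hc.norm_image_sub_le_of_norm_hasDerivWithin_le (f := f) (f' := fun _ => 0) (C := 0)
    (x := w) (y := z) (fun x hx => (hf x hx).hasDerivWithinAt) (fun x _ => by simp) hw hz
  rw [zero_mul] at h
  exact sub_eq_zero.1 (norm_le_zero_iff.1 h)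

/-- a function without zeros on a convex open set has a logarithm -/
theorem exists_log {U : Set ℂ} (hU : IsOpen U) (hc : Convex ℝ U) {Ψ : ℂ → ℂ}
    (hd : DifferentiableOn ℂ Ψ U) (hne : ∀ z ∈ U, Ψ z ≠ 0) :
    ∃ L : ℂ → ℂ, (∀ z ∈ U, HasDerivAt L (deriv Ψ z / Ψ z) z) ∧ ∀ z ∈ U, exp (L z) = Ψ z := by
  rcases U.eq_empty_or_nonempty with h | ⟨z₀, hz₀⟩
  · exact ⟨0, fun z hz => by rw [h] at hz; exact hz.elim, fun z hz => by rw [h] at hz; exact hz.elim⟩
  obtain ⟨L₀, hL₀⟩ := convex_primitive hU hc (f := fun z => deriv Ψ z / Ψ z)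
    ((hd.deriv hU).div hd hne)
  set κ : ℂ := log (Ψ z₀) - L₀ z₀ with hκ
  refine ⟨fun z => L₀ z + κ, fun z hz => (hL₀ z hz).add_const κ, fun z hz => ?_⟩
  have hD : ∀ w ∈ U, HasDerivAt (fun w => Ψ w * exp (-(L₀ w + κ))) 0 w := by
    intro w hw
    have h1 : HasDerivAt Ψ (deriv Ψ w) w := ((hd w hw).differentiableAt (hU.mem_nhds hw)).hasDerivAt
    have h2 := h1.mul (((hL₀ w hw).add_const κ).neg.cexp)
    refine h2.congr_deriv ?_
    have := hne w hw
    simp only [Pi.neg_apply]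
    field_simp
    ring
  have h3 := eq_of_deriv_zero hc hD hz hz₀
  have h4 : Ψ z₀ * exp (-(L₀ z₀ + κ)) = 1 := by
    have : L₀ z₀ + κ = log (Ψ z₀) := by rw [hκ]; ring
    rw [this, Complex.exp_neg, Complex.exp_log (hne z₀ hz₀), mul_inv_cancel₀ (hne z₀ hz₀)]
  rw [h4] at h3
  simp only at h3 ⊢
  rw [Complex.exp_neg] at h3
  field_simp at h3
  exact h3.symm

/-- two continuous logarithms of the same function on a convex set differ by a constant -/
theorem log_unique {U : Set ℂ} (hc : Convex ℝ U) {f g : ℂ → ℂ} {f' g' : ℂ → ℂ}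
    (hf : ∀ z ∈ U, HasDerivAt f (f' z) z) (hg : ∀ z ∈ U, HasDerivAt g (g' z) z)
    (h : ∀ z ∈ U, exp (f z) = exp (g z)) {z w : ℂ} (hU : IsOpen U) (hz : z ∈ U) (hw : w ∈ U) :
    f z - g z = f w - g w := by
  refine eq_of_deriv_zero hc (f := fun z => f z - g z) (fun x hx => ?_) hz hw
  have h1 := (hf x hx).cexp
  have h2 := (hg x hx).cexp
  have h3 : (fun z => exp (f z)) =ᶠ[𝓝 x] fun z => exp (g z) := by
    filter_upwards [hU.mem_nhds hx] with y hy
    exact h y hy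
  have h4 := h1.unique (h2.congr_of_eventuallyEq h3)
  rw [h x hx] at h4
  have h5 := mul_left_cancel₀ (exp_ne_zero _) h4
  have h6 := (hf x hx).sub (hg x hx)
  rw [h5, sub_self] at h6
  exact h6

variable {lam c : ℕ → ℝ} {δ σ : ℝ} {Ψ G : ℂ → ℂ}

/-- **the logarithm, normalised by the Dirichlet series** -/
theorem exists_Lam (D : Dat lam c δ σ) (hσ : 0 < σ) (hΨ : ∀ s : ℂ, 0 < s.re → DifferentiableAt ℂ Ψ s)
    (hne : ∀ s : ℂ, 0 < s.re → Ψ s ≠ 0) (hG : ∀ s : ℂ, 0 < s.re → DifferentiableAt ℂ G s)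
    (hexp : ∀ s : ℂ, σ < s.re → exp (G s - DD lam c s) = Ψ s) :
    ∃ L : ℂ → ℂ, (∀ s : ℂ, 0 < s.re → HasDerivAt L (deriv Ψ s / Ψ s) s) ∧
      (∀ s : ℂ, 0 < s.re → exp (L s) = Ψ s) ∧ ∀ s : ℂ, σ < s.re → L s = G s - DD lam c s := by
  obtain ⟨L₀, h1, h2⟩ := exists_log (HP_open 0) (HP_convex 0) (Ψ := Ψ)
    (fun z hz => (hΨ z hz).differentiableWithinAt) hne
  set z₀ : ℂ := ((σ + 1 : ℝ) : ℂ) with hz₀
  have hz₀' : σ < z₀.re := by rw [hz₀, Complex.ofReal_re]; linarith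
  set κ : ℂ := G z₀ - DD lam c z₀ - L₀ z₀ with hκ
  have h3 : ∀ s : ℂ, σ < s.re → L₀ s - (G s - DD lam c s) = L₀ z₀ - (G z₀ - DD lam c z₀) := by
    intro s hs
    refine log_unique (U := HP σ) (HP_convex σ) (f := L₀) (g := fun s => G s - DD lam c s)
      (f' := fun s => deriv Ψ s / Ψ s) (g' := fun s => deriv G s - -LS.P lam c s)
      (fun z hz => h1 z (hσ.trans hz)) (fun z hz => ?_) (fun z hz => ?_) (HP_open σ) hs hz₀'
    · exact (hG z (hσ.trans hz)).hasDerivAt.sub (dd_deriv D hz)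
    · rw [h2 z (hσ.trans hz)]
      exact (hexp z hz).symm
  have hκ1 : exp κ = 1 := by
    have h4 : exp (L₀ z₀) = exp (G z₀ - DD lam c z₀) := by
      rw [h2 z₀ (hσ.trans hz₀'), hexp z₀ hz₀']
    rw [hκ, Complex.exp_sub, ← h4, div_self (exp_ne_zero _)]
  refine ⟨fun s => L₀ s + κ, fun s hs => (h1 s hs).add_const κ, fun s hs => ?_, fun s hs => ?_⟩
  · rw [Complex.exp_add, hκ1, mul_one, h2 s hs]
  · have h4 := h3 s hs
    simp only
    rw [hκ]
    linear_combination h4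

/-- **the logarithm near a zero at the boundary** -/
theorem log_near {L : ℂ → ℂ} {m : ℕ} {g : ℂ → ℂ} (hL : ∀ s : ℂ, 0 < s.re → exp (L s) = Ψ s)
    (hLd : ∀ s : ℂ, 0 < s.re → HasDerivAt L (deriv Ψ s / Ψ s) s)
    (hg : AnalyticAt ℂ g 0) (hg0 : g 0 ≠ 0) (hΨg : ∀ᶠ s in 𝓝 (0 : ℂ), Ψ s = s ^ m * g s) :
    ∃ (r : ℝ) (Γ : ℂ → ℂ), 0 < r ∧ ContinuousOn Γ (Metric.ball 0 r) ∧ exp (Γ 0) = g 0 ∧
      ∀ s : ℂ, 0 < s.re → ‖s‖ < r → L s = m * log s + Γ s := by
  have hgn : ∀ᶠ v in 𝓝 (0 : ℂ), g v ≠ 0 := hg.continuousAt.eventually_ne hg0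
  have hga : ∀ᶠ v in 𝓝 (0 : ℂ), AnalyticAt ℂ g v := hg.eventually_analyticAt
  obtain ⟨r, hr, hball⟩ := Metric.eventually_nhds_iff_ball.1 (hΨg.and (hgn.and hga))
  obtain ⟨γ, hγ1, hγ2⟩ := exists_log Metric.isOpen_ball (convex_ball (0 : ℂ) r) (Ψ := g)
    (fun z hz => (hball z hz).2.2.differentiableAt.differentiableWithinAt)
    (fun z hz => (hball z hz).2.1)
  set U : Set ℂ := HP 0 ∩ Metric.ball 0 r with hU
  have hUo : IsOpen U := (HP_open 0).inter Metric.isOpen_ball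
  have hUc : Convex ℝ U := (HP_convex 0).inter (convex_ball _ _)
  have hz₀ : ((r / 2 : ℝ) : ℂ) ∈ U := by
    refine ⟨?_, ?_⟩
    · show 0 < (((r / 2 : ℝ) : ℂ)).re
      rw [Complex.ofReal_re]
      positivity
    · rw [Metric.mem_ball, dist_zero_right, Complex.norm_real, Real.norm_eq_abs,
        abs_of_pos (by positivity)]
      linarith
  set z₀ : ℂ := ((r / 2 : ℝ) : ℂ) with hz₀'
  have hslit : ∀ s : ℂ, 0 < s.re → s ∈ slitPlane := fun s hs => Or.inl hs
  have hexp : ∀ z ∈ U, exp (L z) = exp (m * log z + γ z) := by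
    intro z hz
    have hz0 : z ≠ 0 := fun h => by
      have h9 : (0 : ℝ) < z.re := hz.1
      rw [h] at h9
      exact lt_irrefl _ h9
    rw [hL z hz.1, (hball z hz.2).1, Complex.exp_add, hγ2 z hz.2, ← Complex.exp_log hz0,
      ← Complex.exp_nat_mul, Complex.log_exp]
    · exact (by rw [Complex.log_im]; exact Complex.neg_pi_lt_arg z)
    · exact (by rw [Complex.log_im]; exact Complex.arg_le_pi z)
  set κ : ℂ := L z₀ - (m * log z₀ + γ z₀) with hκ
  have key : ∀ z ∈ U, L z - (m * log z + γ z) = κ := by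
    intro z hz
    refine log_unique hUc (f := L) (g := fun z => m * log z + γ z)
      (f' := fun s => deriv Ψ s / Ψ s) (g' := fun z => m * (1 / z) + deriv g z / g z)
      (fun z hz => hLd z hz.1) (fun z hz => ?_) hexp hUo hz hz₀
    have h1 := (Complex.hasDerivAt_log (hslit z hz.1)).const_mul (m : ℂ)
    rw [← one_div] at h1
    exact h1.add (hγ1 z hz.2)
  have hκ1 : exp κ = 1 := by
    rw [hκ, Complex.exp_sub, hexp z₀ hz₀, div_self (exp_ne_zero _)]
  refine ⟨r, fun s => γ s + κ, hr, ?_, ?_, fun s hs hsr => ?_⟩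
  · exact fun z hz => ((hγ1 z hz).continuousAt.add continuousAt_const).continuousWithinAt
  · simp only
    rw [Complex.exp_add, hκ1, mul_one, hγ2 0 (Metric.mem_ball_self hr)]
  · have h1 := key s ⟨hs, by rwa [Metric.mem_ball, dist_zero_right]⟩
    simp only
    linear_combination h1

end Pool.Agent.TH942.RZ
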