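import Pool.Agent.TH942.SL.Line

/-!
# One-sided bounds in the half plane: pointwise consequences and Poisson's formula
-/

set_option autoImplicit false

open MeasureTheory Filter Topology Set Complex
open Pool.Agent.TH942.SL

namespace Pool.Agent.TH942.RZ

/-- a function with a one-sided bound in the half plane -/
structure LD (L : ℂ → ℂ) (A r₀ : ℝ) : Prop where
  A0 : 0 < A
  r1 : 1 ≤ r₀
  d : ∀ s : ℂ, 0 < s.re → DifferentiableAt ℂ L s
  up : ∀ s : ℂ, 0 < s.re → (L s).re ≤ A * (1 + Real.log (1 + |s.im|) + Real.log (1 + 1 / s.re))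
  far : ∀ s : ℂ, r₀ ≤ s.re → ‖L s‖ ≤ A

variable {L : ℂ → ℂ} {A r₀ : ℝ}

lemma log1_nonneg {x : ℝ} (hx : 0 ≤ x) : 0 ≤ Real.log (1 + x) := Real.log_nonneg (by linarith)

/-- the comparison of the values at `s` and `s + Re s` -/
theorem LD.step (h : LD L A r₀) {s : ℂ} (hs : 0 < s.re) :
    ‖L s‖ ≤ ‖L (s + s.re)‖ + 4 * (A * (2 + Real.log (1 + |s.im|) + Real.log (1 + 2 * s.re) +
      Real.log (1 + 1 / s.re)) + |(L (s + s.re)).re|) := by
  have hA := h.A0
  set y : ℝ := s.re with hy
  set τ : ℝ := s.im with hτ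
  set z₀ : ℂ := s + y with hz₀
  have hzre : z₀.re = 2 * y := by rw [hz₀, Complex.add_re, Complex.ofReal_re]; ring
  have hzim : z₀.im = τ := by rw [hz₀, Complex.add_im, Complex.ofReal_im, add_zero]
  set K : ℝ := A * (2 + Real.log (1 + |τ|) + Real.log (1 + 2 * y) + Real.log (1 + 1 / y)) with hK
  have l1 : 0 ≤ Real.log (1 + |τ|) := log1_nonneg (abs_nonneg _)
  have l2 : 0 ≤ Real.log (1 + 2 * y) := log1_nonneg (by positivity)
  have l3 : 0 ≤ Real.log (1 + 1 / y) := log1_nonneg (by positivity)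
  have hM : 0 < K - (L z₀).re := by
    have h1 := h.up z₀ (by rw [hzre]; positivity)
    rw [hzre, hzim] at h1
    have h2 : Real.log (1 + 1 / (2 * y)) ≤ Real.log (1 + 1 / y) := by
      apply Real.log_le_log (by positivity)
      have : 1 / (2 * y) ≤ 1 / y := by
        apply one_div_le_one_div_of_le hs
        linarith
      linarith
    have h3 : A * (1 + Real.log (1 + |τ|) + Real.log (1 + 1 / (2 * y))) < K := by
      rw [hK]
      apply mul_lt_mul_of_pos_left _ hA
      linarith
    linarith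
  have key := borelCaratheodory_zero (f := fun w => L (z₀ + w) - L z₀) (R := 3 / 2 * y)
    (M := K - (L z₀).re) (z := -(y : ℂ)) hM ?_ ?_ (by positivity) ?_ (by simp)
  · have e1 : z₀ + -(y : ℂ) = s := by rw [hz₀]; ring
    simp only [e1] at key
    rw [norm_neg, Complex.norm_real, Real.norm_eq_abs, abs_of_pos hs] at key
    have e2 : 2 * (K - (L z₀).re) * y / (3 / 2 * y - y) = 4 * (K - (L z₀).re) := by
      field_simp
      ring
    rw [e2] at key
    have e3 := norm_sub_norm_le (L s) (L z₀)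
    have e4 := neg_abs_le (L z₀).re
    linarith
  · intro w hw
    rw [Metric.mem_ball, dist_zero_right] at hw
    have h1 : 0 < (z₀ + w).re := by
      have := (abs_le.1 (Complex.abs_re_le_norm w)).1
      rw [Complex.add_re, hzre]
      linarith
    have h2 : DifferentiableAt ℂ (fun w => L (z₀ + w)) w := by
      have h3 := h.d _ h1
      exact DifferentiableAt.comp w h3 (by fun_prop)
    exact (h2.sub_const _).differentiableWithinAt
  · intro w hw
    rw [Metric.mem_ball, dist_zero_right] at hw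
    have hr := (abs_le.1 (Complex.abs_re_le_norm w)).1
    have hi := Complex.abs_im_le_norm w
    have h1 : y / 2 < (z₀ + w).re := by
      rw [Complex.add_re, hzre]
      linarith
    have h2 := h.up (z₀ + w) (by linarith)
    have h3 : |(z₀ + w).im| ≤ |τ| + 2 * y := by
      rw [Complex.add_im, hzim]
      exact (abs_add_le _ _).trans (by linarith)
    have h4 : Real.log (1 + |(z₀ + w).im|) ≤ Real.log (1 + |τ|) + Real.log (1 + 2 * y) := by
      rw [← Real.log_mul (by positivity) (by positivity)]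
      apply Real.log_le_log (by positivity)
      have := mul_nonneg (abs_nonneg τ) hs.le
      nlinarith
    have h5 : Real.log (1 + 1 / (z₀ + w).re) ≤ 1 + Real.log (1 + 1 / y) := by
      have e1 : 1 / (z₀ + w).re ≤ 2 / y := by
        rw [div_le_div_iff₀ (by linarith) hs]
        linarith
      have e2 : 1 + 1 / (z₀ + w).re ≤ 2 * (1 + 1 / y) := by
        have e3 : 2 / y = 2 * (1 / y) := by ring
        rw [e3] at e1
        linarith
      have e4 : Real.log 2 ≤ 1 := by
        have := Real.log_two_lt_d9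
        linarith
      have e5 : 0 < 1 + 1 / (z₀ + w).re := by
        have : 0 < 1 / (z₀ + w).re := one_div_pos.2 (by linarith)
        linarith
      calc Real.log (1 + 1 / (z₀ + w).re) ≤ Real.log (2 * (1 + 1 / y)) := Real.log_le_log e5 e2
        _ = Real.log 2 + Real.log (1 + 1 / y) := Real.log_mul (by norm_num) (by positivity)
        _ ≤ _ := by linarith
    show (L (z₀ + w) - L z₀).re ≤ K - (L z₀).re
    rw [Complex.sub_re]
    have h6 : A * (1 + Real.log (1 + |(z₀ + w).im|) + Real.log (1 + 1 / (z₀ + w).re)) ≤ K := by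
      rw [hK]
      apply mul_le_mul_of_nonneg_left _ hA.le
      linarith
    linarith
  · rw [Metric.mem_ball, dist_zero_right, norm_neg, Complex.norm_real, Real.norm_eq_abs,
      abs_of_pos hs]
    linarith

/-- pointwise bound on half planes -/
theorem LD.ptw (h : LD L A r₀) (n : ℕ) : ∃ B : ℝ, 0 ≤ B ∧ ∀ s : ℂ, r₀ / 2 ^ n ≤ s.re →
    ‖L s‖ ≤ B * (1 + Real.log (1 + |s.im|)) := by
  have hA := h.A0
  have hr : 0 < r₀ := by linarith [h.r1]
  induction n with
  | zero =>
    refine ⟨A, hA.le, fun s hs => ?_⟩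
    rw [pow_zero, div_one] at hs
    have h1 := h.far s hs
    have h2 : 0 ≤ Real.log (1 + |s.im|) := log1_nonneg (abs_nonneg _)
    nlinarith
  | succ n ih =>
    obtain ⟨B, hB, hBB⟩ := ih
    set x₀ : ℝ := r₀ / 2 ^ (n + 1) with hx₀
    have hx0 : 0 < x₀ := by positivity
    set Q : ℝ := 2 + Real.log (1 + 2 * r₀) + Real.log (1 + 1 / x₀) with hQ
    have l2 : 0 ≤ Real.log (1 + 2 * r₀) := log1_nonneg (by positivity)
    have l3 : 0 ≤ Real.log (1 + 1 / x₀) := log1_nonneg (by positivity)
    refine ⟨A + 5 * B + 4 * A * (Q + 1), by positivity, fun s hs => ?_⟩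
    have hs0 : 0 < s.re := hx0.trans_le hs
    have l1 : 0 ≤ Real.log (1 + |s.im|) := log1_nonneg (abs_nonneg _)
    by_cases hc : r₀ ≤ s.re
    · have h1 := h.far s hc
      have h2 : A ≤ (A + 5 * B + 4 * A * (Q + 1)) * (1 + Real.log (1 + |s.im|)) := by
        have h3 : A ≤ A + 5 * B + 4 * A * (Q + 1) := by
          have : 0 ≤ 4 * A * (Q + 1) := by positivity
          linarith
        have h4 : 0 ≤ A + 5 * B + 4 * A * (Q + 1) := by positivity
        nlinarith
      exact h1.trans h2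
    · push Not at hc
      have h1 := h.step hs0
      have him : (s + (s.re : ℂ)).im = s.im := by simp
      have h2 := hBB (s + s.re) (by
        rw [Complex.add_re, Complex.ofReal_re]
        have : r₀ / 2 ^ n = 2 * x₀ := by rw [hx₀, pow_succ]; field_simp
        rw [this]
        linarith)
      rw [him] at h2
      have h3 : |(L (s + s.re)).re| ≤ ‖L (s + s.re)‖ := Complex.abs_re_le_norm _
      have h4 : Real.log (1 + 2 * s.re) ≤ Real.log (1 + 2 * r₀) :=
        Real.log_le_log (by positivity) (by linarith)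
      have h5 : Real.log (1 + 1 / s.re) ≤ Real.log (1 + 1 / x₀) := by
        apply Real.log_le_log (by positivity)
        have := one_div_le_one_div_of_le hx0 hs
        linarith
      have h6 : A * (2 + Real.log (1 + |s.im|) + Real.log (1 + 2 * s.re) +
          Real.log (1 + 1 / s.re)) ≤ A * (Q + 1) * (1 + Real.log (1 + |s.im|)) := by
        have e1 : 2 + Real.log (1 + |s.im|) + Real.log (1 + 2 * s.re) +
          Real.log (1 + 1 / s.re) ≤ (Q + 1) * (1 + Real.log (1 + |s.im|)) := by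
          have : 0 ≤ Q * Real.log (1 + |s.im|) := by positivity
          nlinarith
        calc _ ≤ A * ((Q + 1) * (1 + Real.log (1 + |s.im|))) := mul_le_mul_of_nonneg_left e1 hA.le
          _ = _ := by ring
      have h7 : 0 ≤ A * (1 + Real.log (1 + |s.im|)) := by positivity
      nlinarith

lemma one_add_log_le {ε x : ℝ} (hε : 0 < ε) (hx : 0 ≤ x) :
    1 + Real.log (1 + x) ≤ (1 + 1 / ε) * (1 + x) ^ ε := by
  have h1 := Real.log_le_rpow_div (x := 1 + x) (by linarith) hε
  have h2 : 1 ≤ (1 + x) ^ ε := Real.one_le_rpow (by linarith) hε.le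
  calc 1 + Real.log (1 + x) ≤ (1 + x) ^ ε + (1 + x) ^ ε / ε := by linarith
    _ = _ := by ring

/-- power bound on half planes -/
theorem LD.pow (h : LD L A r₀) {x₀ ε : ℝ} (hx₀ : 0 < x₀) (hε : 0 < ε) :
    ∃ B : ℝ, 0 ≤ B ∧ ∀ s : ℂ, x₀ ≤ s.re → ‖L s‖ ≤ B * (1 + |s.im|) ^ ε := by
  have hr : 0 < r₀ := by linarith [h.r1]
  obtain ⟨n, hn⟩ := pow_unbounded_of_one_lt (r₀ / x₀) (by norm_num : (1 : ℝ) < 2)
  obtain ⟨B, hB, hBB⟩ := h.ptw n
  refine ⟨B * (1 + 1 / ε), by positivity, fun s hs => ?_⟩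
  have h1 : r₀ / 2 ^ n ≤ s.re := by
    rw [div_lt_iff₀ hx₀] at hn
    rw [div_le_iff₀ (by positivity)]
    have : (0 : ℝ) < 2 ^ n := by positivity
    nlinarith
  refine (hBB s h1).trans ?_
  rw [mul_assoc]
  exact mul_le_mul_of_nonneg_left (one_add_log_le hε (abs_nonneg _)) hB

/-- a line integral which vanishes -/
theorem V_zero {H : ℂ → ℂ} {x B p : ℝ} {g : ℝ → ℝ} (hp : 1 < p) (hB : 0 ≤ B)
    (hd : ∀ s : ℂ, x ≤ s.re → DifferentiableAt ℂ H s)
    (hH : ∀ s : ℂ, x ≤ s.re → ‖H s‖ ≤ B * g s.re * (1 + |s.im|) ^ (-p))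
    (hg1 : ∀ y, x ≤ y → g y ≤ 1) (hg : Tendsto g atTop (𝓝 0)) : V x H = 0 := by
  have hdec := decay_int hp
  have h1 : ∀ y, x ≤ y → V x H = V y H := fun y hy =>
    shift (B := B) hp hy (fun s hs _ => hd s hs) fun s hs _ => by
      refine (hH s hs).trans ?_
      refine mul_le_mul_of_nonneg_right ?_ (by positivity)
      calc B * g s.re ≤ B * 1 := mul_le_mul_of_nonneg_left (hg1 _ hs) hB
        _ = B := mul_one B
  have h2 : ∀ y, x ≤ y → ‖V x H‖ ≤ (2 * Real.pi)⁻¹ * (B * g y * ∫ t : ℝ, (1 + |t|) ^ (-p)) := by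
    intro y hy
    rw [h1 y hy, ← integral_const_mul]
    refine norm_V_le (hdec.const_mul _) fun t => ?_
    have := hH (y + t * I) (by simpa using hy)
    simpa using this
  have h3 : Tendsto (fun y => (2 * Real.pi)⁻¹ * (B * g y * ∫ t : ℝ, (1 + |t|) ^ (-p))) atTop
      (𝓝 ((2 * Real.pi)⁻¹ * (B * 0 * ∫ t : ℝ, (1 + |t|) ^ (-p)))) :=
    ((hg.const_mul B).mul_const _).const_mul _
  rw [mul_zero, zero_mul, mul_zero] at h3
  refine norm_le_zero_iff.1 (ge_of_tendsto h3 ?_)
  filter_upwards [eventually_ge_atTop x] with y hy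
  exact h2 y hy

/-- **Poisson's formula** -/
theorem LD.poisson (h : LD L A r₀) {x d : ℝ} (hx : 0 < x) (hd : 0 < d) :
    ∫ t : ℝ, (L (x + t * I) - L ((x + d : ℝ) : ℂ)) * ((d / (d ^ 2 + t ^ 2) : ℝ) : ℂ) = 0 := by
  set R : ℂ := ((x + d : ℝ) : ℂ) with hR
  have hRre : R.re = x + d := by rw [hR, Complex.ofReal_re]
  have hRim : R.im = 0 := by rw [hR, Complex.ofReal_im]
  have hopen : IsOpen {s : ℂ | 0 < s.re} := isOpen_lt continuous_const Complex.continuous_re
  have hRm : {s : ℂ | 0 < s.re} ∈ 𝓝 R := hopen.mem_nhds (by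
    show 0 < R.re
    rw [hRre]; positivity)
  have hds : DifferentiableOn ℂ (dslope L R) {s : ℂ | 0 < s.re} :=
    (Complex.differentiableOn_dslope hRm).2 fun z hz => (h.d z hz).differentiableWithinAt
  have hdsa : ∀ s : ℂ, 0 < s.re → DifferentiableAt ℂ (dslope L R) s := fun s hs =>
    (hds s hs).differentiableAt (hopen.mem_nhds hs)
  -- bound of the slope
  obtain ⟨B, hB, hBB⟩ := h.pow hx (by norm_num : (0 : ℝ) < 1 / 4)
  obtain ⟨C, hC, hCC⟩ : ∃ C : ℝ, 0 ≤ C ∧ ∀ s : ℂ, x ≤ s.re →
      ‖dslope L R s‖ ≤ C * (1 + |s.im|) ^ (-(3 / 4 : ℝ)) := by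
    set K : Set ℂ := Metric.closedBall R 1 ∩ {s : ℂ | x ≤ s.re} with hK
    have hKc : IsCompact K := (isCompact_closedBall R 1).inter_right
      (isClosed_le continuous_const Complex.continuous_re)
    obtain ⟨C₁, hC₁⟩ := hKc.exists_bound_of_continuousOn (f := dslope L R) fun s hs =>
      (hdsa s (hx.trans_le hs.2)).continuousAt.continuousWithinAt
    refine ⟨|C₁| * 2 + (2 * B + 2 * ‖L R‖), by positivity, fun s hs => ?_⟩
    have hp0 : 0 < (1 + |s.im|) ^ (-(3 / 4 : ℝ)) := Real.rpow_pos_of_pos (by positivity) _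
    by_cases hc : ‖s - R‖ ≤ 1
    · have e1 := hC₁ s ⟨by rwa [Metric.mem_closedBall, Complex.dist_eq], hs⟩
      have e2 : |s.im| ≤ 1 := by
        have := (Complex.abs_im_le_norm (s - R)).trans hc
        rwa [Complex.sub_im, hRim, sub_zero] at this
      have e3 : 1 ≤ 2 * (1 + |s.im|) ^ (-(3 / 4 : ℝ)) := by
        have e4 : (1 + |s.im|) ^ (3 / 4 : ℝ) ≤ 2 := by
          calc (1 + |s.im|) ^ (3 / 4 : ℝ) ≤ (2 : ℝ) ^ (3 / 4 : ℝ) :=
                Real.rpow_le_rpow (by positivity) (by linarith) (by norm_num)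
            _ ≤ (2 : ℝ) ^ (1 : ℝ) := Real.rpow_le_rpow_of_exponent_le (by norm_num) (by norm_num)
            _ = 2 := Real.rpow_one 2
        rw [Real.rpow_neg (by positivity), ← div_eq_mul_inv, le_div_iff₀
          (Real.rpow_pos_of_pos (by positivity) _)]
        linarith
      calc ‖dslope L R s‖ ≤ |C₁| * 1 := by rw [mul_one]; exact e1.trans (le_abs_self _)
        _ ≤ |C₁| * (2 * (1 + |s.im|) ^ (-(3 / 4 : ℝ))) :=
            mul_le_mul_of_nonneg_left e3 (abs_nonneg _)
        _ = |C₁| * 2 * (1 + |s.im|) ^ (-(3 / 4 : ℝ)) := by ring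
        _ ≤ _ := by
            apply mul_le_mul_of_nonneg_right _ hp0.le
            have : 0 ≤ 2 * B + 2 * ‖L R‖ := by positivity
            linarith
    · push Not at hc
      have hne : s ≠ R := fun h0 => by rw [h0, sub_self, norm_zero] at hc; linarith
      have e0 : 0 < ‖s - R‖ := by linarith
      rw [dslope_of_ne _ hne, slope_def_field, norm_div]
      have e1 : ‖L s - L R‖ ≤ (B + ‖L R‖) * (1 + |s.im|) ^ (1 / 4 : ℝ) := by
        have e2 := hBB s hs
        have e3 : (1 : ℝ) ≤ (1 + |s.im|) ^ (1 / 4 : ℝ) :=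
          Real.one_le_rpow (by linarith [abs_nonneg s.im]) (by norm_num)
        have e4 := norm_sub_le (L s) (L R)
        have e5 := norm_nonneg (L R)
        nlinarith
      have e6 : (1 + |s.im|) / 2 ≤ ‖s - R‖ := by
        have := Complex.abs_im_le_norm (s - R)
        rw [Complex.sub_im, hRim, sub_zero] at this
        linarith
      rw [div_le_iff₀ e0]
      have e7 : (1 + |s.im|) ^ (-(3 / 4 : ℝ)) * (1 + |s.im|) = (1 + |s.im|) ^ (1 / 4 : ℝ) := by
        have e8 := Real.rpow_add (show 0 < 1 + |s.im| by positivity) (-(3 / 4)) 1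
        rw [Real.rpow_one] at e8
        rw [← e8]
        norm_num
      calc ‖L s - L R‖ ≤ (B + ‖L R‖) * (1 + |s.im|) ^ (1 / 4 : ℝ) := e1
        _ = (2 * B + 2 * ‖L R‖) * (1 + |s.im|) ^ (-(3 / 4 : ℝ)) * ((1 + |s.im|) / 2) := by
            rw [← e7]; ring
        _ ≤ (|C₁| * 2 + (2 * B + 2 * ‖L R‖)) * (1 + |s.im|) ^ (-(3 / 4 : ℝ)) * ‖s - R‖ := by
            have hh : 2 * B + 2 * ‖L R‖ ≤ |C₁| * 2 + (2 * B + 2 * ‖L R‖) := by
              linarith [abs_nonneg C₁]
            exact mul_le_mul (mul_le_mul_of_nonneg_right hh hp0.le) e6 (by positivity)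
              (by positivity)
  -- the function
  set H : ℂ → ℂ := fun s => dslope L R s * ((d : ℂ) / (s + (d - x))) with hH
  have hwre : ∀ s : ℂ, (s + ((d : ℂ) - x)).re = s.re - x + d := fun s => by
    rw [Complex.add_re, Complex.sub_re, Complex.ofReal_re, Complex.ofReal_re]; ring
  have hwim : ∀ s : ℂ, (s + ((d : ℂ) - x)).im = s.im := fun s => by
    rw [Complex.add_im, Complex.sub_im, Complex.ofReal_im, Complex.ofReal_im]; ring
  set κ : ℝ := min 1 d / 2 with hκ
  have hκ0 : 0 < κ := by have := lt_min one_pos hd; positivity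
  have hV : V x H = 0 := by
    refine V_zero (p := 3 / 2) (B := C * (d * κ ^ (-(3 / 4 : ℝ)) * d ^ (-(1 / 4) : ℝ)))
      (g := fun y => ((y - x + d) / d) ^ (-(1 / 4) : ℝ)) (by norm_num) (by positivity)
      (fun s hs => ?_) (fun s hs => ?_) (fun y hy => ?_) ?_
    · refine (hdsa s (hx.trans_le hs)).mul (DifferentiableAt.div (by fun_prop) (by fun_prop) ?_)
      intro h0
      have := congrArg Complex.re h0
      rw [hwre, Complex.zero_re] at this
      linarith
    · have e1 := hCC s hs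
      have e2 : 0 < s.re - x + d := by linarith
      have e3 : s.re - x + d ≤ ‖s + ((d : ℂ) - x)‖ := by
        rw [← hwre]; exact Complex.re_le_norm _
      have e4 : κ * (1 + |s.im|) ≤ ‖s + ((d : ℂ) - x)‖ := by
        have e5 : |s.im| ≤ ‖s + ((d : ℂ) - x)‖ := by
          rw [← hwim]; exact Complex.abs_im_le_norm _
        have e6 : κ ≤ 1 / 2 := by
          rw [hκ]; have := min_le_left 1 d; linarith
        have e7 : κ ≤ d / 2 := by
          rw [hκ]; have := min_le_right 1 d; linarith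
        have := abs_nonneg s.im
        nlinarith
      have e8 : 0 < ‖s + ((d : ℂ) - x)‖ := e2.trans_le e3
      have e9 : ‖s + ((d : ℂ) - x)‖⁻¹ ≤ (s.re - x + d) ^ (-(1 / 4) : ℝ) *
          (κ * (1 + |s.im|)) ^ (-(3 / 4) : ℝ) := by
        have e10 : ‖s + ((d : ℂ) - x)‖⁻¹ = ‖s + ((d : ℂ) - x)‖ ^ (-(1 / 4) : ℝ) *
            ‖s + ((d : ℂ) - x)‖ ^ (-(3 / 4) : ℝ) := by
          rw [← Real.rpow_add e8, ← Real.rpow_neg_one]
          norm_num
        rw [e10]
        refine mul_le_mul (Real.rpow_le_rpow_of_nonpos e2 e3 (by norm_num))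
          (Real.rpow_le_rpow_of_nonpos (by positivity) e4 (by norm_num)) (by positivity)
          (by positivity)
      rw [hH]
      simp only
      rw [norm_mul, norm_div, Complex.norm_real, Real.norm_eq_abs, abs_of_pos hd, div_eq_mul_inv]
      calc ‖dslope L R s‖ * (d * ‖s + ((d : ℂ) - x)‖⁻¹) ≤ (C * (1 + |s.im|) ^ (-(3 / 4 : ℝ))) *
            (d * ((s.re - x + d) ^ (-(1 / 4) : ℝ) * (κ * (1 + |s.im|)) ^ (-(3 / 4) : ℝ))) := by
            gcongr
        _ = _ := by
            rw [Real.mul_rpow hκ0.le (by positivity), Real.div_rpow e2.le hd.le]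
            have e11 : (1 + |s.im|) ^ (-(3 / 2) : ℝ) = (1 + |s.im|) ^ (-(3 / 4) : ℝ) *
                (1 + |s.im|) ^ (-(3 / 4) : ℝ) := by
              rw [← Real.rpow_add (by positivity)]
              norm_num
            rw [e11]
            have e12 : d ^ (-(1 / 4) : ℝ) ≠ 0 := (Real.rpow_pos_of_pos hd _).ne'
            field_simp
    · refine Real.rpow_le_one_of_one_le_of_nonpos ?_ (by norm_num)
      rw [le_div_iff₀ hd]
      linarith
    · have e1 : Tendsto (fun y : ℝ => (y - x + d) / d) atTop atTop := by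
        refine Tendsto.atTop_div_const hd ?_
        have : (fun y : ℝ => y - x + d) = fun y => y + (d - x) := by funext y; ring
        rw [this]
        exact tendsto_atTop_add_const_right _ _ tendsto_id
      exact (tendsto_rpow_neg_atTop (by norm_num : (0 : ℝ) < 1 / 4)).comp e1
  unfold V at hV
  have hpi := Real.pi_pos
  have h2 : ((2 * Real.pi)⁻¹ : ℝ) ≠ 0 := by positivity
  have h3 : ∫ t : ℝ, H (x + t * I) = 0 :=
    (mul_eq_zero.1 hV).resolve_left (by exact_mod_cast h2)
  have h4 : ∀ t : ℝ, (L (x + t * I) - L R) * ((d / (d ^ 2 + t ^ 2) : ℝ) : ℂ) =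
      -H (x + t * I) := by
    intro t
    have hne : (x : ℂ) + t * I ≠ R := fun h0 => by
      have := congrArg Complex.re h0
      rw [hRre] at this
      simp at this
      linarith
    rw [hH]
    simp only
    rw [dslope_of_ne _ hne, slope_def_field]
    have e1 : (x : ℂ) + t * I - R = -(d : ℂ) + t * I := by rw [hR]; push_cast; ring
    have e2 : (x : ℂ) + t * I + (d - x) = d + t * I := by ring
    rw [e1, e2]
    have e3 : ((d ^ 2 + t ^ 2 : ℝ) : ℂ) = -((-(d : ℂ) + t * I) * (d + t * I)) := by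
      have := Complex.I_sq
      push_cast
      linear_combination ((t : ℂ) ^ 2) * this
    have e4 : -(d : ℂ) + t * I ≠ 0 := fun h0 => by
      have := congrArg Complex.re h0
      simp at this
      linarith
    have e5 : (d : ℂ) + t * I ≠ 0 := fun h0 => by
      have := congrArg Complex.re h0
      simp at this
      linarith
    rw [Complex.ofReal_div, e3]
    field_simp
  simp only [h4]
  rw [integral_neg, h3, neg_zero]

end Pool.Agent.TH942.RZ
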