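import Pool.Agent.TH942.RZ.Bd

/-!
# Mean values of a function with one-sided bounds along vertical lines
-/

set_option autoImplicit false

open MeasureTheory Filter Topology Set Complex
open Pool.Agent.TH942.SL

namespace Pool.Agent.TH942.RZ

/-- the Poisson kernel -/
noncomputable def PK (d t : ℝ) : ℝ := d / (d ^ 2 + t ^ 2)

lemma PK_cont {d : ℝ} (hd : 0 < d) : Continuous (PK d) := by
  unfold PK
  exact continuous_const.div (by fun_prop) fun t => by positivity

lemma PK_nonneg {d : ℝ} (hd : 0 < d) (t : ℝ) : 0 ≤ PK d t := by unfold PK; positivity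

lemma sq_eq_rpow {y : ℝ} (hy : 0 < y) : y ^ (-2 : ℝ) = (y ^ 2)⁻¹ := by
  rw [Real.rpow_neg hy.le]
  norm_cast

lemma PK_le {d : ℝ} (hd : 1 ≤ d) (t : ℝ) : PK d t ≤ 2 * d * (1 + |t|) ^ (-2 : ℝ) := by
  have h0 : 0 < 1 + |t| := by positivity
  unfold PK
  rw [sq_eq_rpow h0, ← div_eq_mul_inv, div_le_div_iff₀ (by positivity) (by positivity)]
  have h1 : (1 + |t|) ^ 2 ≤ 2 * (d ^ 2 + t ^ 2) := by
    have := sq_abs t
    nlinarith [sq_nonneg (1 - |t|)]
  nlinarith

lemma int_mul_PK {f : ℝ → ℝ} (hf : Continuous f) {B : ℝ} (hB : ∀ t, |f t| ≤ B * (1 + |t|) ^ (1 / 4 : ℝ))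
    {d : ℝ} (hd : 1 ≤ d) : Integrable fun t => f t * PK d t := by
  have hd0 : 0 < d := by linarith
  refine ((decay_int (p := 7 / 4) (by norm_num)).const_mul (B * (2 * d))).mono'
    (hf.mul (PK_cont hd0)).aestronglyMeasurable (ae_of_all _ fun t => ?_)
  rw [Real.norm_eq_abs, abs_mul, abs_of_nonneg (PK_nonneg hd0 t)]
  have h0 : 0 < 1 + |t| := by positivity
  calc |f t| * PK d t ≤ (B * (1 + |t|) ^ (1 / 4 : ℝ)) * (2 * d * (1 + |t|) ^ (-2 : ℝ)) :=
        mul_le_mul (hB t) (PK_le hd t) (PK_nonneg hd0 t) ((abs_nonneg _).trans (hB t))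
    _ = B * (2 * d) * ((1 + |t|) ^ (1 / 4 : ℝ) * (1 + |t|) ^ (-2 : ℝ)) := by ring
    _ = _ := by
        rw [← Real.rpow_add h0]
        norm_num

lemma PK_scale {d : ℝ} (hd : 0 < d) (f : ℝ → ℝ) :
    ∫ t : ℝ, f t * PK d t = ∫ t : ℝ, f (d * t) * (1 + t ^ 2)⁻¹ := by
  have h1 := Measure.integral_comp_mul_left (fun t : ℝ => f t * PK d t) d
  rw [abs_of_pos (by positivity : 0 < d⁻¹), smul_eq_mul] at h1
  have h2 : ∫ t : ℝ, f t * PK d t = d * ∫ t : ℝ, f (d * t) * PK d (d * t) := by
    rw [h1, ← mul_assoc, mul_inv_cancel₀ hd.ne', one_mul]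
  rw [h2, ← integral_const_mul]
  congr 1
  funext t
  unfold PK
  field_simp

lemma PK_integral {d : ℝ} (hd : 0 < d) : ∫ t : ℝ, PK d t = Real.pi := by
  have h := PK_scale hd (fun _ => 1)
  simp only [one_mul] at h
  rw [h]
  exact integral_univ_inv_one_add_sq

lemma log1_le (t : ℝ) : |Real.log (1 + |t|)| ≤ 4 * (1 + |t|) ^ (1 / 4 : ℝ) := by
  rw [abs_of_nonneg (log1_nonneg (abs_nonneg _))]
  have := Real.log_le_rpow_div (x := 1 + |t|) (by positivity) (by norm_num : (0 : ℝ) < 1 / 4)
  calc _ ≤ _ := this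
    _ = _ := by ring

lemma log1_cont : Continuous fun t : ℝ => Real.log (1 + |t|) :=
  Continuous.log (by fun_prop) fun t => by positivity

/-- the constant -/
noncomputable def c₁ : ℝ := ∫ t : ℝ, Real.log (1 + |t|) * (1 + t ^ 2)⁻¹

lemma PK_one (t : ℝ) : PK 1 t = (1 + t ^ 2)⁻¹ := by
  unfold PK
  rw [one_pow, one_div]

lemma PK_log {d : ℝ} (hd : 1 ≤ d) :
    ∫ t : ℝ, Real.log (1 + |t|) * PK d t ≤ Real.pi * Real.log (1 + d) + c₁ := by
  have hd0 : 0 < d := by linarith
  rw [PK_scale hd0]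
  have i1 : Integrable fun t : ℝ => (1 + t ^ 2)⁻¹ := integrable_inv_one_add_sq
  have i2 : Integrable fun t : ℝ => Real.log (1 + |t|) * (1 + t ^ 2)⁻¹ := by
    have := int_mul_PK log1_cont log1_le le_rfl
    simpa only [PK_one] using this
  have h1 : ∫ t : ℝ, Real.log (1 + |d * t|) * (1 + t ^ 2)⁻¹ ≤
      ∫ t : ℝ, (Real.log (1 + d) * (1 + t ^ 2)⁻¹ + Real.log (1 + |t|) * (1 + t ^ 2)⁻¹) := by
    have key : ∀ t : ℝ, Real.log (1 + |d * t|) ≤ Real.log (1 + d) + Real.log (1 + |t|) := by
      intro t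
      rw [← Real.log_mul (by positivity) (by positivity)]
      apply Real.log_le_log (by positivity)
      rw [abs_mul, abs_of_pos hd0]
      nlinarith [abs_nonneg t]
    refine integral_mono_of_nonneg (ae_of_all _ fun t => ?_) ((i1.const_mul _).add i2)
      (ae_of_all _ fun t => ?_)
    · have := log1_nonneg (abs_nonneg (d * t))
      simp only [Pi.zero_apply]
      positivity
    · have h2 : (0 : ℝ) ≤ (1 + t ^ 2)⁻¹ := by positivity
      simp only
      rw [← add_mul]
      exact mul_le_mul_of_nonneg_right (key t) h2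
  refine h1.trans (le_of_eq ?_)
  rw [integral_add (i1.const_mul _) i2, integral_const_mul]
  unfold c₁
  rw [integral_univ_inv_one_add_sq]
  ring

lemma c₁_nonneg : 0 ≤ c₁ := by
  unfold c₁
  refine integral_nonneg fun t => ?_
  have := log1_nonneg (abs_nonneg t)
  simp only [Pi.zero_apply]
  positivity

variable {L : ℂ → ℂ} {A r₀ : ℝ}

lemma LD.lcont (h : LD L A r₀) {x : ℝ} (hx : 0 < x) : Continuous fun t : ℝ => L (x + t * I) :=
  SL.line_cont fun s hs => (h.d s (by rw [hs]; exact hx)).continuousAt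

/-- **the mean of the real part with the Poisson kernel** -/
theorem LD.absre (h : LD L A r₀) : ∃ C : ℝ, 0 ≤ C ∧ ∀ x d : ℝ, 0 < x → r₀ ≤ d →
    Integrable (fun t : ℝ => |(L (x + t * I)).re| * PK d t) ∧
    ∫ t : ℝ, |(L (x + t * I)).re| * PK d t ≤
      C * (1 + Real.log (1 + d) + Real.log (1 + 1 / x)) := by
  have hA := h.A0
  have hpi := Real.pi_pos
  have hc1 := c₁_nonneg
  refine ⟨A * (5 * Real.pi + 2 * c₁), by positivity, fun x d hx hd => ?_⟩
  have hd1 : 1 ≤ d := h.r1.trans hd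
  have hd0 : 0 < d := by linarith
  obtain ⟨B, hB, hBB⟩ := h.pow hx (by norm_num : (0 : ℝ) < 1 / 4)
  have hre : ∀ t : ℝ, ((x : ℂ) + t * I).re = x := fun t => by simp
  have him : ∀ t : ℝ, ((x : ℂ) + t * I).im = t := fun t => by simp
  have hLb : ∀ t : ℝ, ‖L (x + t * I)‖ ≤ B * (1 + |t|) ^ (1 / 4 : ℝ) := by
    intro t
    have := hBB (x + t * I) (by rw [hre])
    rwa [him] at this
  have hcont := h.lcont hx
  have i0 : Integrable fun t => PK d t := by
    have := int_mul_PK (f := fun _ => (1 : ℝ)) continuous_const (B := 1) (fun t => by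
      rw [abs_one, one_mul]
      exact Real.one_le_rpow (by linarith [abs_nonneg t]) (by norm_num)) hd1
    simpa only [one_mul] using this
  have i1 : Integrable fun t => Real.log (1 + |t|) * PK d t := int_mul_PK log1_cont log1_le hd1
  have i2 : Integrable fun t : ℝ => |(L (x + t * I)).re| * PK d t :=
    int_mul_PK (Complex.continuous_re.comp hcont).abs (B := B) (fun t => by
      rw [abs_abs]
      exact (Complex.abs_re_le_norm _).trans (hLb t)) hd1
  have i3 : Integrable fun t : ℝ => (L (x + t * I)).re * PK d t :=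
    int_mul_PK (Complex.continuous_re.comp hcont) (B := B) (fun t =>
      (Complex.abs_re_le_norm _).trans (hLb t)) hd1
  refine ⟨i2, ?_⟩
  set R : ℂ := ((x + d : ℝ) : ℂ) with hR
  have hRb : ‖L R‖ ≤ A := h.far R (by rw [hR, Complex.ofReal_re]; linarith)
  have hRb' : |(L R).re| ≤ A := (Complex.abs_re_le_norm _).trans hRb
  -- Poisson
  have hP : ∫ t : ℝ, (L (x + t * I)).re * PK d t = (L R).re * Real.pi := by
    have e1 := h.poisson hx hd0
    rw [← hR] at e1
    have e2 := congrArg Complex.re e1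
    have hint : Integrable fun t : ℝ => (L (x + t * I) - L R) *
        ((d / (d ^ 2 + t ^ 2) : ℝ) : ℂ) := by
      refine ((decay_int (p := 7 / 4) (by norm_num)).const_mul ((B + ‖L R‖) * (2 * d))).mono' ?_
        (ae_of_all _ fun t => ?_)
      · refine Continuous.aestronglyMeasurable ((hcont.sub continuous_const).mul ?_)
        exact Complex.continuous_ofReal.comp (PK_cont hd0)
      · rw [norm_mul, Complex.norm_real, Real.norm_eq_abs]
        have e3 : |d / (d ^ 2 + t ^ 2)| = PK d t := abs_of_nonneg (PK_nonneg hd0 t)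
        rw [e3]
        have h0 : 0 < 1 + |t| := by positivity
        have e4 : ‖L (x + t * I) - L R‖ ≤ (B + ‖L R‖) * (1 + |t|) ^ (1 / 4 : ℝ) := by
          have e5 : (1 : ℝ) ≤ (1 + |t|) ^ (1 / 4 : ℝ) :=
            Real.one_le_rpow (by linarith [abs_nonneg t]) (by norm_num)
          have e6 := norm_sub_le (L (x + t * I)) (L R)
          have e7 := hLb t
          have e8 := norm_nonneg (L R)
          nlinarith
        calc _ ≤ ((B + ‖L R‖) * (1 + |t|) ^ (1 / 4 : ℝ)) * (2 * d * (1 + |t|) ^ (-2 : ℝ)) :=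
              mul_le_mul e4 (PK_le hd1 t) (PK_nonneg hd0 t) ((norm_nonneg _).trans e4)
          _ = (B + ‖L R‖) * (2 * d) * ((1 + |t|) ^ (1 / 4 : ℝ) * (1 + |t|) ^ (-2 : ℝ)) := by ring
          _ = _ := by
              rw [← Real.rpow_add h0]
              norm_num
    have e3 : (∫ t : ℝ, (L (x + t * I) - L R) * ((d / (d ^ 2 + t ^ 2) : ℝ) : ℂ)).re =
        ∫ t : ℝ, ((L (x + t * I) - L R) * ((d / (d ^ 2 + t ^ 2) : ℝ) : ℂ)).re := by
      have := (integral_re (𝕜 := ℂ) hint)
      exact this.symm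
    rw [e3, Complex.zero_re] at e2
    have e4 : ∀ t : ℝ, ((L (x + t * I) - L R) * ((d / (d ^ 2 + t ^ 2) : ℝ) : ℂ)).re =
        (L (x + t * I)).re * PK d t - (L R).re * PK d t := by
      intro t
      rw [Complex.re_mul_ofReal, Complex.sub_re]
      unfold PK
      ring
    simp only [e4] at e2
    rw [integral_sub i3 (i0.const_mul _), integral_const_mul, PK_integral hd0] at e2
    linarith
  -- the estimate
  set l : ℝ := Real.log (1 + 1 / x) with hl
  have hl0 : 0 ≤ l := log1_nonneg (by positivity)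
  have hld : 0 ≤ Real.log (1 + d) := log1_nonneg hd0.le
  have hpt : ∀ t : ℝ, |(L (x + t * I)).re| * PK d t ≤
      (A * (2 * (1 + l)) * PK d t + A * 2 * (Real.log (1 + |t|) * PK d t)) -
        (L (x + t * I)).re * PK d t := by
    intro t
    have e1 := h.up (x + t * I) (by rw [hre]; exact hx)
    rw [hre, him, ← hl] at e1
    have e2 := PK_nonneg hd0 t
    have e3 : |(L (x + t * I)).re| ≤ A * (2 * (1 + l)) + A * 2 * Real.log (1 + |t|) -
        (L (x + t * I)).re := by
      have e4 : 0 ≤ A * (1 + Real.log (1 + |t|) + l) := by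
        have := log1_nonneg (abs_nonneg t)
        positivity
      rcases abs_cases (L (x + t * I)).re with ⟨e5, -⟩ | ⟨e5, -⟩
      · rw [e5]; linarith
      · rw [e5]; linarith
    calc _ ≤ (A * (2 * (1 + l)) + A * 2 * Real.log (1 + |t|) - (L (x + t * I)).re) * PK d t :=
          mul_le_mul_of_nonneg_right e3 e2
      _ = _ := by ring
  have i4 : Integrable fun t : ℝ => A * (2 * (1 + l)) * PK d t +
      A * 2 * (Real.log (1 + |t|) * PK d t) := (i0.const_mul _).add (i1.const_mul _)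
  have i5 : Integrable fun t : ℝ => (A * (2 * (1 + l)) * PK d t +
      A * 2 * (Real.log (1 + |t|) * PK d t)) - (L (x + t * I)).re * PK d t := i4.sub i3
  have h1 := integral_mono i2 i5 hpt
  have h2 : ∫ t : ℝ, ((A * (2 * (1 + l)) * PK d t + A * 2 * (Real.log (1 + |t|) * PK d t)) -
        (L (x + t * I)).re * PK d t) = A * (2 * (1 + l)) * Real.pi +
        A * 2 * (∫ t : ℝ, Real.log (1 + |t|) * PK d t) - (L R).re * Real.pi := by
    rw [integral_sub i4 i3, integral_add (i0.const_mul _)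
      (i1.const_mul _), integral_const_mul, integral_const_mul, PK_integral hd0, hP]
  rw [h2] at h1
  refine h1.trans ?_
  have h3 := PK_log hd1
  have h4 : -(L R).re * Real.pi ≤ A * Real.pi := by
    have := (abs_le.1 hRb').1
    apply mul_le_mul_of_nonneg_right _ hpi.le
    linarith
  have h5 : A * 2 * (∫ t : ℝ, Real.log (1 + |t|) * PK d t) ≤
      A * 2 * (Real.pi * Real.log (1 + d) + c₁) := mul_le_mul_of_nonneg_left h3 (by positivity)
  have h6 : A * (2 * (1 + l)) * Real.pi + A * 2 * (Real.pi * Real.log (1 + d) + c₁) + A * Real.pi ≤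
      A * (5 * Real.pi + 2 * c₁) * (1 + Real.log (1 + d) + l) := by
    have e1 : 0 ≤ A * c₁ := by positivity
    have e2 : 0 ≤ A * Real.pi := by positivity
    have e3 : 0 ≤ A * c₁ * Real.log (1 + d) := by positivity
    have e4 : 0 ≤ A * c₁ * l := by positivity
    have e5 : 0 ≤ A * Real.pi * Real.log (1 + d) := by positivity
    have e6 : 0 ≤ A * Real.pi * l := by positivity
    nlinarith
  linarith

lemma sum_weight {κ : ℝ} (hκ : 0 < κ) : Summable fun j : ℕ => ((1 / 2 : ℝ) ^ κ) ^ j * (1 + (j : ℝ)) := by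
  have h1 : (1 / 2 : ℝ) ^ κ < 1 := Real.rpow_lt_one (by norm_num) (by norm_num) hκ
  have h0 : 0 < (1 / 2 : ℝ) ^ κ := Real.rpow_pos_of_pos (by norm_num) _
  have h2 : ‖(1 / 2 : ℝ) ^ κ‖ < 1 := by rw [Real.norm_eq_abs, abs_of_pos h0]; exact h1
  have h3 := (summable_geometric_of_norm_lt_one h2).add
    (summable_pow_mul_geometric_of_norm_lt_one 1 h2)
  refine h3.congr fun j => ?_
  ring

/-- **the weighted mean of the real part** -/
theorem LD.meanre (h : LD L A r₀) {κ : ℝ} (hκ : 0 < κ) :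
    ∃ C : ℝ, 0 ≤ C ∧ ∀ x : ℝ, 0 < x →
    ∫ t : ℝ, |(L (x + t * I)).re| * (1 + |t|) ^ (-(1 + κ)) ≤ C * (1 + Real.log (1 + 1 / x)) := by
  obtain ⟨C, hC, hCC⟩ := h.absre
  have hr := h.r1
  have hr0 : 0 < r₀ := by linarith
  set q : ℝ := (1 / 2 : ℝ) ^ κ with hq
  have hq0 : 0 < q := Real.rpow_pos_of_pos (by norm_num) _
  set lr : ℝ := Real.log (1 + r₀) with hlr
  have hlr0 : 0 ≤ lr := log1_nonneg hr0.le
  set K : ℝ := (r₀ ^ 2 + 4) / r₀ with hK
  have hK0 : 0 < K := by positivity
  set Sg : ℝ := ∑' j : ℕ, q ^ j * (1 + (j : ℝ)) with hSg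
  have hsum := sum_weight hκ
  have hSg0 : 0 ≤ Sg := tsum_nonneg fun j => by positivity
  refine ⟨K * C * (1 + lr) * Sg, by positivity, fun x hx => ?_⟩
  set l : ℝ := Real.log (1 + 1 / x) with hl
  have hl0 : 0 ≤ l := log1_nonneg (by positivity)
  have hre : ∀ t : ℝ, ((x : ℂ) + t * I).re = x := fun t => by simp
  have hcont := h.lcont hx
  -- terms
  have hdj : ∀ j : ℕ, r₀ ≤ 2 ^ j * r₀ := fun j => by
    have : (1 : ℝ) ≤ 2 ^ j := one_le_pow₀ (by norm_num)
    nlinarith
  set a : ℕ → ℝ → ℝ := fun j t => K * q ^ j * (|(L (x + t * I)).re| * PK (2 ^ j * r₀) t) with ha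
  have hai : ∀ j, Integrable (a j) := fun j => (hCC x _ hx (hdj j)).1.const_mul _
  have ha0 : ∀ j t, 0 ≤ a j t := fun j t => by
    have := PK_nonneg (d := 2 ^ j * r₀) (by positivity) t
    rw [ha]
    positivity
  have haI : ∀ j, ∫ t, a j t ≤ (K * C * (1 + lr) * (1 + l)) * (q ^ j * (1 + (j : ℝ))) := by
    intro j
    rw [ha]
    simp only
    rw [integral_const_mul]
    have e1 := (hCC x _ hx (hdj j)).2
    have e2 : Real.log (1 + 2 ^ j * r₀) ≤ j + lr := by
      have e3 : Real.log (1 + 2 ^ j * r₀) ≤ Real.log (2 ^ j * (1 + r₀)) := by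
        apply Real.log_le_log (by positivity)
        have : (1 : ℝ) ≤ 2 ^ j := one_le_pow₀ (by norm_num)
        linarith
      rw [Real.log_mul (by positivity) (by positivity), Real.log_pow] at e3
      have e4 : Real.log 2 ≤ 1 := by
        have := Real.log_two_lt_d9
        linarith
      have e5 : (j : ℝ) * Real.log 2 ≤ j * 1 := mul_le_mul_of_nonneg_left e4 (by positivity)
      linarith
    have e6 : 1 + Real.log (1 + 2 ^ j * r₀) + l ≤ (1 + (j : ℝ)) * (1 + lr) * (1 + l) := by
      have hj : (0 : ℝ) ≤ j := Nat.cast_nonneg j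
      have e7 : 0 ≤ (j : ℝ) * lr := by positivity
      have e8 : 0 ≤ (j : ℝ) * l := by positivity
      have e9 : 0 ≤ lr * l := by positivity
      have e10 : 0 ≤ (j : ℝ) * lr * l := by positivity
      nlinarith
    calc K * q ^ j * _ ≤ K * q ^ j * (C * (1 + Real.log (1 + 2 ^ j * r₀) + l)) :=
          mul_le_mul_of_nonneg_left e1 (by positivity)
      _ ≤ K * q ^ j * (C * ((1 + (j : ℝ)) * (1 + lr) * (1 + l))) := by gcongr
      _ = _ := by ring
  -- the function
  set f : ℝ → ℝ := fun t => |(L (x + t * I)).re| * (1 + |t|) ^ (-(1 + κ)) with hf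
  have hf0 : ∀ t, 0 ≤ f t := fun t => by rw [hf]; positivity
  have hpt : ∀ t, ∃ j, f t ≤ a j t := by
    intro t
    obtain ⟨j, h1, h2⟩ := exists_nat_pow_near (x := 1 + |t|) (y := (2 : ℝ))
      (by linarith [abs_nonneg t]) (by norm_num)
    refine ⟨j, ?_⟩
    have h0 : 0 < 1 + |t| := by positivity
    have hp : (0 : ℝ) < 2 ^ j := by positivity
    rw [hf, ha]
    simp only
    have e1 : (1 + |t|) ^ (-(1 + κ)) ≤ K * q ^ j * PK (2 ^ j * r₀) t := by
      have e2 : (1 + |t|) ^ (-(1 + κ)) ≤ ((2 : ℝ) ^ j) ^ (-(1 + κ)) :=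
        Real.rpow_le_rpow_of_nonpos hp h1 (by linarith)
      have e3 : ((2 : ℝ) ^ j) ^ (-(1 + κ)) = q ^ j * ((2 : ℝ) ^ j)⁻¹ := by
        rw [show -(1 + κ) = -κ + -1 by ring, Real.rpow_add hp, Real.rpow_neg_one]
        congr 1
        rw [hq, one_div, Real.inv_rpow (by norm_num), ← Real.rpow_neg (by norm_num),
          ← Real.rpow_natCast, ← Real.rpow_natCast, ← Real.rpow_mul (by norm_num),
          ← Real.rpow_mul (by norm_num)]
        congr 1
        ring
      have e4 : ((2 : ℝ) ^ j)⁻¹ ≤ K * PK (2 ^ j * r₀) t := by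
        unfold PK
        rw [hK, div_mul_div_comm, inv_eq_one_div, div_le_div_iff₀ hp (by positivity)]
        have e5 : t ^ 2 ≤ 4 * (2 ^ j) ^ 2 := by
          rw [← sq_abs]
          have e6 : |t| ≤ 2 * 2 ^ j := by
            rw [pow_succ] at h2
            linarith
          nlinarith [abs_nonneg t]
        nlinarith
      calc _ ≤ q ^ j * ((2 : ℝ) ^ j)⁻¹ := e2.trans (le_of_eq e3)
        _ ≤ q ^ j * (K * PK (2 ^ j * r₀) t) := mul_le_mul_of_nonneg_left e4 (by positivity)
        _ = _ := by ring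
    calc _ ≤ |(L (x + t * I)).re| * (K * q ^ j * PK (2 ^ j * r₀) t) :=
          mul_le_mul_of_nonneg_left e1 (abs_nonneg _)
      _ = _ := by ring
  have hfi : Integrable f := by
    obtain ⟨B, hB, hBB⟩ := h.pow hx (ε := κ / 2) (by positivity)
    refine ((decay_int (p := 1 + κ / 2) (by linarith)).const_mul B).mono' ?_
      (ae_of_all _ fun t => ?_)
    · refine Continuous.aestronglyMeasurable ?_
      exact ((Complex.continuous_re.comp hcont).abs).mul
        (Continuous.rpow_const (by fun_prop) fun t => Or.inl (by positivity))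
    · have h0 : 0 < 1 + |t| := by positivity
      have e1 := hBB (x + t * I) (by rw [hre])
      have e2 : ((x : ℂ) + t * I).im = t := by simp
      rw [e2] at e1
      rw [Real.norm_eq_abs, abs_of_nonneg (hf0 t), hf]
      simp only
      calc _ ≤ (B * (1 + |t|) ^ (κ / 2)) * (1 + |t|) ^ (-(1 + κ)) :=
            mul_le_mul_of_nonneg_right ((Complex.abs_re_le_norm _).trans e1) (by positivity)
        _ = B * ((1 + |t|) ^ (κ / 2) * (1 + |t|) ^ (-(1 + κ))) := by ring
        _ = _ := by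
            rw [← Real.rpow_add h0]
            congr 2
            ring
  set T₀ : ℝ := (K * C * (1 + lr) * (1 + l)) * Sg with hT₀
  have hfin : ENNReal.ofReal (∫ t, f t) ≤ ENNReal.ofReal T₀ := by
    rw [ofReal_integral_eq_lintegral_ofReal hfi (ae_of_all _ hf0)]
    calc ∫⁻ t, ENNReal.ofReal (f t) ≤ ∫⁻ t, ∑' j, ENNReal.ofReal (a j t) := by
          refine lintegral_mono fun t => ?_
          obtain ⟨j, hj⟩ := hpt t
          exact (ENNReal.ofReal_le_ofReal hj).trans
            (ENNReal.le_tsum (f := fun j => ENNReal.ofReal (a j t)) j)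
      _ = ∑' j, ∫⁻ t, ENNReal.ofReal (a j t) :=
          lintegral_tsum fun j => (hai j).aestronglyMeasurable.aemeasurable.ennreal_ofReal
      _ = ∑' j, ENNReal.ofReal (∫ t, a j t) := by
          congr 1
          funext j
          rw [ofReal_integral_eq_lintegral_ofReal (hai j) (ae_of_all _ (ha0 j))]
      _ ≤ ∑' j : ℕ, ENNReal.ofReal ((K * C * (1 + lr) * (1 + l)) * (q ^ j * (1 + (j : ℝ)))) :=
          ENNReal.tsum_le_tsum fun j => ENNReal.ofReal_le_ofReal (haI j)
      _ = ENNReal.ofReal T₀ := by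
          rw [← ENNReal.ofReal_tsum_of_nonneg (fun j => by positivity) (hsum.mul_left _),
            tsum_mul_left]
  have hT0 : 0 ≤ T₀ := by positivity
  have := (ENNReal.ofReal_le_ofReal_iff hT0).1 hfin
  refine this.trans (le_of_eq ?_)
  rw [hT₀]
  ring

/-- **the weighted mean of the modulus** -/
theorem LD.mean (h : LD L A r₀) {κ : ℝ} (hκ : 0 < κ) :
    ∃ C : ℝ, 0 ≤ C ∧ ∀ (n : ℕ) (x : ℝ), r₀ / 2 ^ n ≤ x →
    ∫ t : ℝ, ‖L (x + t * I)‖ * (1 + |t|) ^ (-(1 + κ)) ≤ C * (1 + (n : ℝ)) ^ 2 := by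
  obtain ⟨C, hC, hCC⟩ := h.meanre hκ
  have hA := h.A0
  have hr := h.r1
  have hr0 : 0 < r₀ := by linarith
  set w : ℝ → ℝ := fun t => (1 + |t|) ^ (-(1 + κ)) with hw
  have hw0 : ∀ t, 0 ≤ w t := fun t => by rw [hw]; positivity
  have hwc : Continuous w := Continuous.rpow_const (by fun_prop) fun t => Or.inl (by positivity)
  have iw : Integrable w := decay_int (by linarith)
  have iwl : Integrable fun t => Real.log (1 + |t|) * w t := by
    refine ((decay_int (p := 1 + κ / 2) (by linarith)).const_mul (1 / (κ / 2))).mono'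
      (log1_cont.mul hwc).aestronglyMeasurable (ae_of_all _ fun t => ?_)
    have h0 : 0 < 1 + |t| := by positivity
    rw [Real.norm_eq_abs, abs_mul, abs_of_nonneg (hw0 t),
      abs_of_nonneg (log1_nonneg (abs_nonneg t))]
    have e1 := Real.log_le_rpow_div (x := 1 + |t|) (by positivity) (by positivity : 0 < κ / 2)
    calc _ ≤ ((1 + |t|) ^ (κ / 2) / (κ / 2)) * w t := mul_le_mul_of_nonneg_right e1 (hw0 t)
      _ = 1 / (κ / 2) * ((1 + |t|) ^ (κ / 2) * (1 + |t|) ^ (-(1 + κ))) := by rw [hw]; ring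
      _ = _ := by
          rw [← Real.rpow_add h0]
          congr 2
          ring
  have iL : ∀ x : ℝ, 0 < x → Integrable fun t : ℝ => ‖L (x + t * I)‖ * w t := by
    intro x hx
    obtain ⟨B, hB, hBB⟩ := h.pow hx (ε := κ / 2) (by positivity)
    refine ((decay_int (p := 1 + κ / 2) (by linarith)).const_mul B).mono'
      ((h.lcont hx).norm.mul hwc).aestronglyMeasurable (ae_of_all _ fun t => ?_)
    have h0 : 0 < 1 + |t| := by positivity
    have e1 := hBB (x + t * I) (by simp)
    have e2 : ((x : ℂ) + t * I).im = t := by simp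
    rw [e2] at e1
    rw [norm_mul, norm_norm, Real.norm_eq_abs, abs_of_nonneg (hw0 t)]
    calc _ ≤ (B * (1 + |t|) ^ (κ / 2)) * (1 + |t|) ^ (-(1 + κ)) :=
          mul_le_mul_of_nonneg_right e1 (by positivity)
      _ = B * ((1 + |t|) ^ (κ / 2) * (1 + |t|) ^ (-(1 + κ))) := by ring
      _ = _ := by
          rw [← Real.rpow_add h0]
          congr 2
          ring
  have iR : ∀ x : ℝ, 0 < x → Integrable fun t : ℝ => |(L (x + t * I)).re| * w t := by
    intro x hx
    refine (iL x hx).mono' (((Complex.continuous_re.comp (h.lcont hx)).abs).mul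
      hwc).aestronglyMeasurable (ae_of_all _ fun t => ?_)
    rw [norm_mul, Real.norm_eq_abs, Real.norm_eq_abs, abs_abs, abs_of_nonneg (hw0 t)]
    exact mul_le_mul_of_nonneg_right (Complex.abs_re_le_norm _) (hw0 t)
  set W₀ : ℝ := ∫ t, w t with hW₀
  set W₁ : ℝ := ∫ t, Real.log (1 + |t|) * w t with hW₁
  have hW0 : 0 ≤ W₀ := integral_nonneg hw0
  have hW1 : 0 ≤ W₁ := integral_nonneg fun t => mul_nonneg (log1_nonneg (abs_nonneg t)) (hw0 t)
  set l₀ : ℝ := Real.log (1 + 2 * r₀) with hl₀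
  have hl0 : 0 ≤ l₀ := log1_nonneg (by positivity)
  -- the step constant
  set C₂ : ℝ := 4 * (A * ((4 + l₀) * W₀ + W₁)) + 4 * (C * 3) with hC₂
  have hC2 : 0 ≤ C₂ := by positivity
  refine ⟨A * W₀ + C₂, by positivity, fun n => ?_⟩
  induction n with
  | zero =>
    intro x hx
    rw [pow_zero, div_one] at hx
    have e1 : ∫ t : ℝ, ‖L (x + t * I)‖ * w t ≤ ∫ t : ℝ, A * w t := by
      refine integral_mono (iL x (by linarith)) (iw.const_mul _) fun t => ?_
      exact mul_le_mul_of_nonneg_right (h.far _ (by simpa using hx)) (hw0 t)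
    rw [integral_const_mul] at e1
    have e2 : A * W₀ ≤ (A * W₀ + C₂) * (1 + ((0 : ℕ) : ℝ)) ^ 2 := by
      norm_num
      exact hC2
    exact e1.trans e2
  | succ n ih =>
    intro x hx
    have hx0 : 0 < x := lt_of_lt_of_le (by positivity) hx
    have hn0 : (0 : ℝ) ≤ n := Nat.cast_nonneg n
    have hmono : (A * W₀ + C₂) * (1 + (n : ℝ)) ^ 2 ≤ (A * W₀ + C₂) * (1 + ((n + 1 : ℕ) : ℝ)) ^ 2 := by
      have : 0 ≤ A * W₀ + C₂ := by positivity
      apply mul_le_mul_of_nonneg_left _ this
      push_cast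
      nlinarith
    by_cases hc : r₀ / 2 ^ n ≤ x
    · exact (ih x hc).trans hmono
    · push Not at hc
      have hxr : x ≤ r₀ := by
        have e1 : r₀ / 2 ^ n ≤ r₀ := div_le_self hr0.le (one_le_pow₀ (by norm_num))
        linarith
      have h2x : r₀ / 2 ^ n ≤ 2 * x := by
        have e1 : r₀ / 2 ^ n = 2 * (r₀ / 2 ^ (n + 1)) := by rw [pow_succ]; field_simp
        rw [e1]
        linarith
      have e1 := ih (2 * x) h2x
      have e2 := hCC (2 * x) (by positivity)
      -- logarithms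
      have hxl : Real.log (1 + 1 / x) ≤ n + 2 := by
        have e3 : 1 + 1 / x ≤ 2 ^ (n + 2) := by
          have e4 : 1 / x ≤ 2 ^ (n + 1) := by
            rw [div_le_iff₀ hx0]
            rw [div_le_iff₀ (by positivity)] at hx
            nlinarith
          have e5 : (1 : ℝ) ≤ 2 ^ (n + 1) := one_le_pow₀ (by norm_num)
          rw [pow_succ (2 : ℝ) (n + 1)]
          linarith
        have e6 := Real.log_le_log (by positivity) e3
        rw [Real.log_pow] at e6
        have e7 : Real.log 2 ≤ 1 := by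
          have := Real.log_two_lt_d9
          linarith
        have e8 : ((n + 2 : ℕ) : ℝ) * Real.log 2 ≤ ((n + 2 : ℕ) : ℝ) * 1 :=
          mul_le_mul_of_nonneg_left e7 (by positivity)
        push_cast at e6 e8
        linarith
      have hxl2 : Real.log (1 + 1 / (2 * x)) ≤ n + 2 := by
        refine le_trans (Real.log_le_log (by positivity) ?_) hxl
        have : 1 / (2 * x) ≤ 1 / x := one_div_le_one_div_of_le hx0 (by linarith)
        linarith
      have hx2 : Real.log (1 + 2 * x) ≤ l₀ := Real.log_le_log (by positivity) (by linarith)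
      set u : ℝ := A * (2 + l₀ + (n + 2)) with hu
      have e3 : ∀ t : ℝ, ‖L (x + t * I)‖ * w t ≤ ‖L (((2 * x : ℝ) : ℂ) + t * I)‖ * w t +
          4 * ((u * w t + A * (Real.log (1 + |t|) * w t)) +
            |(L (((2 * x : ℝ) : ℂ) + t * I)).re| * w t) := by
        intro t
        have e4 := h.step (s := x + t * I) (by simpa using hx0)
        have hre : ((x : ℂ) + t * I).re = x := by simp
        have him : ((x : ℂ) + t * I).im = t := by simp
        have e5 : (x : ℂ) + t * I + (((x : ℂ) + t * I).re : ℂ) = ((2 * x : ℝ) : ℂ) + t * I := by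
          rw [hre]; push_cast; ring
        rw [e5, hre, him] at e4
        have e6 : A * (2 + Real.log (1 + |t|) + Real.log (1 + 2 * x) + Real.log (1 + 1 / x)) ≤
            u + A * Real.log (1 + |t|) := by
          rw [hu, ← mul_add]
          apply mul_le_mul_of_nonneg_left _ hA.le
          linarith
        calc ‖L (x + t * I)‖ * w t ≤ (‖L (((2 * x : ℝ) : ℂ) + t * I)‖ +
              4 * ((u + A * Real.log (1 + |t|)) + |(L (((2 * x : ℝ) : ℂ) + t * I)).re|)) * w t := by
              apply mul_le_mul_of_nonneg_right _ (hw0 t)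
              linarith
          _ = _ := by ring
      have i1 := iL (2 * x) (by positivity)
      have i2 := iR (2 * x) (by positivity)
      have i3 : Integrable fun t => u * w t + A * (Real.log (1 + |t|) * w t) :=
        (iw.const_mul _).add (iwl.const_mul _)
      have i6 : Integrable fun t : ℝ => (u * w t + A * (Real.log (1 + |t|) * w t)) +
            |(L (((2 * x : ℝ) : ℂ) + t * I)).re| * w t := i3.add i2
      have i7 : Integrable fun t : ℝ => ‖L (((2 * x : ℝ) : ℂ) + t * I)‖ * w t +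
          4 * ((u * w t + A * (Real.log (1 + |t|) * w t)) +
            |(L (((2 * x : ℝ) : ℂ) + t * I)).re| * w t) := i1.add (i6.const_mul 4)
      have e4 := integral_mono (iL x hx0) i7 e3
      have e5 : ∫ t : ℝ, (‖L (((2 * x : ℝ) : ℂ) + t * I)‖ * w t +
          4 * ((u * w t + A * (Real.log (1 + |t|) * w t)) +
            |(L (((2 * x : ℝ) : ℂ) + t * I)).re| * w t)) =
          (∫ t : ℝ, ‖L (((2 * x : ℝ) : ℂ) + t * I)‖ * w t) + 4 * ((u * W₀ + A * W₁) +
            ∫ t : ℝ, |(L (((2 * x : ℝ) : ℂ) + t * I)).re| * w t) := by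
        rw [integral_add i1 (i6.const_mul 4), integral_const_mul, integral_add i3 i2,
          integral_add (iw.const_mul _) (iwl.const_mul _), integral_const_mul, integral_const_mul]
      rw [e5] at e4
      refine e4.trans ?_
      have e6 : C * (1 + Real.log (1 + 1 / (2 * x))) ≤ C * (3 * (1 + (n : ℝ))) := by
        apply mul_le_mul_of_nonneg_left _ hC
        linarith
      have e7 : u * W₀ + A * W₁ ≤ A * ((4 + l₀) * W₀ + W₁) * (1 + (n : ℝ)) := by
        have e8 : u ≤ A * (4 + l₀) * (1 + (n : ℝ)) := by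
          rw [hu, mul_assoc]
          apply mul_le_mul_of_nonneg_left _ hA.le
          have : 0 ≤ l₀ * n := by positivity
          nlinarith
        have e9 : u * W₀ ≤ A * (4 + l₀) * (1 + (n : ℝ)) * W₀ := mul_le_mul_of_nonneg_right e8 hW0
        have e10 : A * W₁ ≤ A * W₁ * (1 + (n : ℝ)) := by
          have : 0 ≤ A * W₁ * n := by positivity
          nlinarith
        calc _ ≤ A * (4 + l₀) * (1 + (n : ℝ)) * W₀ + A * W₁ * (1 + (n : ℝ)) := add_le_add e9 e10
          _ = _ := by ring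
      have e11 : (∫ t : ℝ, ‖L (((2 * x : ℝ) : ℂ) + t * I)‖ * w t) + 4 * ((u * W₀ + A * W₁) +
            ∫ t : ℝ, |(L (((2 * x : ℝ) : ℂ) + t * I)).re| * w t) ≤
          (A * W₀ + C₂) * (1 + (n : ℝ)) ^ 2 + C₂ * (1 + (n : ℝ)) := by
        have e12 : C₂ * (1 + (n : ℝ)) = 4 * (A * ((4 + l₀) * W₀ + W₁) * (1 + (n : ℝ))) +
            4 * (C * (3 * (1 + (n : ℝ)))) := by rw [hC₂]; ring
        rw [e12]
        have e13 : ∫ t : ℝ, |(L (((2 * x : ℝ) : ℂ) + t * I)).re| * w t ≤ C * (3 * (1 + (n : ℝ))) :=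
          e2.trans e6
        linarith
      refine e11.trans ?_
      push_cast
      have e14 : 0 ≤ A * W₀ := by positivity
      nlinarith

end Pool.Agent.TH942.RZ
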