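import Pool.Agent.TH942.RZ.Rep

/-!
# The limit of the Riesz means
-/

set_option autoImplicit false

open MeasureTheory Filter Topology Set Complex
open Pool.Agent.TH942.LS (Dat S)
open Pool.Agent.TH942.SL

namespace Pool.Agent.TH942.RZ

variable {lam c : ℕ → ℝ} {δ σ : ℝ} {Ψ G g L : ℂ → ℂ} {m : ℕ} {κG : ℂ} {A A' C r₀ k : ℝ}

/-- the points of the line `Re z = 1` -/
noncomputable def zz (t : ℝ) : ℂ := ((1 : ℝ) : ℂ) + t * I

lemma zz_re (t : ℝ) : (zz t).re = 1 := by unfold zz; simp
lemma zz_im (t : ℝ) : (zz t).im = t := by unfold zz; simp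
lemma zz_cont : Continuous zz := by unfold zz; fun_prop
lemma zz_ne (t : ℝ) : zz t ≠ 0 := fun h => by
  have := congrArg Complex.re h
  rw [zz_re] at this
  simp at this
lemma zz_one (t : ℝ) : 1 ≤ ‖zz t‖ := by rw [← zz_re t]; exact re_le_norm _
lemma zz_pos (t : ℝ) : 0 < ‖zz t‖ := one_pos.trans_le (zz_one t)
lemma zz_le (t : ℝ) : ‖zz t‖ ≤ 1 + |t| := by
  unfold zz
  refine (norm_add_le _ _).trans ?_
  rw [norm_mul, Complex.norm_I, mul_one, Complex.norm_real, Complex.norm_real, Real.norm_eq_abs,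
    Real.norm_eq_abs, abs_one]

lemma zz_div_re (t : ℝ) {T : ℝ} (_hT : 0 < T) : (zz t / T).re = 1 / T := by
  rw [Complex.div_ofReal_re, zz_re]

lemma zz_div_im (t T : ℝ) : (zz t / T).im = t / T := by
  rw [Complex.div_ofReal_im, zz_im]

lemma zz_div (t : ℝ) {T : ℝ} (hT : 0 < T) :
    zz t / T = ((1 / T : ℝ) : ℂ) + ((T⁻¹ * t : ℝ) : ℂ) * I := by
  unfold zz
  have : (T : ℂ) ≠ 0 := by exact_mod_cast hT.ne'
  push_cast
  field_simp

/-- the weight on the line -/
noncomputable def wl (k t : ℝ) : ℝ := ‖zz t‖ ^ (-(k + 1))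

lemma wl_nonneg (k t : ℝ) : 0 ≤ wl k t := by unfold wl; positivity

lemma wl_cont (k : ℝ) : Continuous (wl k) :=
  Continuous.rpow_const zz_cont.norm fun t => Or.inl (zz_pos t).ne'

lemma wl_le (hk : 0 < k) (t : ℝ) : wl k t ≤ 2 ^ (k + 1) * (1 + |t|) ^ (-(k + 1)) := by
  unfold wl
  have := nb (z := zz t) one_pos (by linarith : 0 ≤ k + 1) (zz_one t)
  rw [zz_im] at this
  refine this.trans (le_of_eq ?_)
  norm_num

/-- `1 + log (1 + |z|)` on the line -/
noncomputable def ll (t : ℝ) : ℝ := 1 + Real.log (1 + ‖zz t‖)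

lemma ll_one (t : ℝ) : 1 ≤ ll t := by
  unfold ll
  have := log1_nonneg (norm_nonneg (zz t))
  linarith

lemma ll_cont : Continuous ll := by
  unfold ll
  refine continuous_const.add (Continuous.log (continuous_const.add zz_cont.norm) fun t => ?_)
  have := zz_pos t
  positivity

lemma ll_le (hk : 0 < k) (t : ℝ) : ll t ≤ (2 + 1 / (k / 2)) * (1 + |t|) ^ (k / 2) := by
  unfold ll
  have h1 : Real.log (1 + ‖zz t‖) ≤ Real.log 2 + Real.log (1 + |t|) := by
    rw [← Real.log_mul (by norm_num) (by positivity)]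
    apply Real.log_le_log
    · have := zz_pos t
      positivity
    · have := zz_le t
      have := abs_nonneg t
      linarith
  have h2 : Real.log 2 ≤ 1 := by
    have := Real.log_two_lt_d9
    linarith
  have h3 := one_add_log_le (ε := k / 2) (by positivity) (abs_nonneg t)
  have h4 : 1 ≤ (1 + |t|) ^ (k / 2) := Real.one_le_rpow (by linarith [abs_nonneg t]) (by positivity)
  have h5 : (2 + 1 / (k / 2)) * (1 + |t|) ^ (k / 2) =
      (1 + |t|) ^ (k / 2) + (1 + 1 / (k / 2)) * (1 + |t|) ^ (k / 2) := by ring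
  rw [h5]
  linarith

lemma int_of_ll (hk : 0 < k) {f : ℝ → ℝ} (hf : AEStronglyMeasurable f volume) {B : ℝ}
    (h : ∀ t, |f t| ≤ B * ll t * wl k t) : Integrable f := by
  have hB : 0 ≤ |B| := abs_nonneg B
  refine ((decay_int (p := 1 + k / 2) (by linarith)).const_mul
    (|B| * ((2 + 1 / (k / 2)) * 2 ^ (k + 1)))).mono' hf (ae_of_all _ fun t => ?_)
  rw [Real.norm_eq_abs]
  have h0 : 0 < 1 + |t| := by positivity
  have h1 := ll_one t
  calc |f t| ≤ B * ll t * wl k t := h t
    _ ≤ |B| * ll t * wl k t := by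
        have := le_abs_self B
        have := wl_nonneg k t
        gcongr
    _ ≤ |B| * ((2 + 1 / (k / 2)) * (1 + |t|) ^ (k / 2)) * (2 ^ (k + 1) * (1 + |t|) ^ (-(k + 1))) := by
        have := ll_le hk t
        have := wl_le hk t
        have := wl_nonneg k t
        gcongr
    _ = |B| * ((2 + 1 / (k / 2)) * 2 ^ (k + 1)) * ((1 + |t|) ^ (k / 2) * (1 + |t|) ^ (-(k + 1))) := by
        ring
    _ = _ := by
        rw [← Real.rpow_add h0]
        congr 2
        ring

/-- the kernel on the line -/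
noncomputable def Wk (k t : ℝ) : ℂ := exp (zz t) * ks k (zz t)

lemma norm_Wk (k t : ℝ) : ‖Wk k t‖ = Real.exp 1 * wl k t := by
  unfold Wk wl
  rw [norm_mul, Complex.norm_exp, zz_re, norm_ks]

lemma Wk_cont (k : ℝ) : Continuous (Wk k) := by
  unfold Wk
  refine Continuous.mul (Complex.continuous_exp.comp zz_cont) ?_
  have : Continuous fun t : ℝ => ks k (((1 : ℝ) : ℂ) + t * I) :=
    line_cont fun s hs => (ks_diff k (by rw [hs]; exact one_pos)).continuousAt
  exact this

lemma int_of_ll' (hk : 0 < k) {f : ℝ → ℂ} (hf : Continuous f) {B : ℝ}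
    (h : ∀ t, ‖f t‖ ≤ B * ll t) : Integrable fun t => f t * Wk k t := by
  refine (integrable_norm_iff (f := fun t => f t * Wk k t)
    (hf.mul (Wk_cont k)).aestronglyMeasurable).1 ?_
  refine int_of_ll hk (hf.mul (Wk_cont k)).norm.aestronglyMeasurable (B := B * Real.exp 1)
    fun t => ?_
  rw [abs_norm, norm_mul, norm_Wk]
  have := wl_nonneg k t
  calc ‖f t‖ * (Real.exp 1 * wl k t) ≤ (B * ll t) * (Real.exp 1 * wl k t) := by
        have := h t
        gcongr
    _ = _ := by ring

/-- **decay of the mean of the logarithm** -/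
theorem LD.small (h : LD L A r₀) (hk : 0 < k) : Tendsto (fun T : ℝ => T ^ (-k) *
    ∫ u : ℝ, ‖L (((1 / T : ℝ) : ℂ) + u * I)‖ * (1 + |u|) ^ (-(1 + k))) atTop (𝓝 0) := by
  have hr := h.r1
  -- the mean for arbitrary `κ = k`
  obtain ⟨C, hC, hCC⟩ := h.mean hk
  have hq := sum_weight (κ := k / 4) (by positivity)
  set q : ℝ := (1 / 2 : ℝ) ^ (k / 4) with hqd
  have hq0 : 0 < q := Real.rpow_pos_of_pos (by norm_num) _
  set M₀ : ℝ := ∑' j : ℕ, q ^ j * (1 + (j : ℝ)) with hM₀
  have hM0 : 0 ≤ M₀ := tsum_nonneg fun j => by positivity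
  have hterm : ∀ j : ℕ, q ^ j * (1 + (j : ℝ)) ≤ M₀ := fun j =>
    hq.le_tsum j fun i _ => by positivity
  have hb : ∀ T : ℝ, 1 ≤ T → (∫ u : ℝ, ‖L (((1 / T : ℝ) : ℂ) + u * I)‖ * (1 + |u|) ^ (-(1 + k))) ≤
      C * (M₀ ^ 2 * (2 * r₀) ^ (k / 2)) * T ^ (k / 2) := by
    intro T hT
    have hT0 : 0 < T := by linarith
    obtain ⟨n, h1, h2⟩ := exists_nat_pow_near (x := r₀ * T) (y := (2 : ℝ)) (by nlinarith)
      (by norm_num)
    have h3 : r₀ / 2 ^ (n + 1) ≤ 1 / T := by
      rw [div_le_div_iff₀ (by positivity) hT0]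
      linarith
    refine (hCC (n + 1) (1 / T) h3).trans ?_
    have h4 : (1 + ((n + 1 : ℕ) : ℝ)) ^ 2 ≤ M₀ ^ 2 * (2 ^ (n + 1)) ^ (k / 2) := by
      have h5 := hterm (n + 1)
      have h6 : (q ^ (n + 1) * (1 + ((n + 1 : ℕ) : ℝ))) ^ 2 ≤ M₀ ^ 2 :=
        pow_le_pow_left₀ (by positivity) h5 2
      have h7 : (q ^ (n + 1)) ^ 2 * (2 ^ (n + 1)) ^ (k / 2) = 1 := by
        rw [hqd]
        have e1 : (((1 / 2 : ℝ) ^ (k / 4)) ^ (n + 1)) ^ 2 = ((2 : ℝ) ^ (n + 1)) ^ (-(k / 2)) := by
          rw [one_div, Real.inv_rpow (by norm_num), ← Real.rpow_neg (by norm_num),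
            ← pow_mul, ← Real.rpow_natCast, ← Real.rpow_natCast, ← Real.rpow_mul (by norm_num),
            ← Real.rpow_mul (by norm_num)]
          congr 1
          push_cast
          ring
        rw [e1, ← Real.rpow_add (by positivity), neg_add_cancel, Real.rpow_zero]
      have h8 : 0 < ((2 : ℝ) ^ (n + 1)) ^ (k / 2) := by positivity
      calc (1 + ((n + 1 : ℕ) : ℝ)) ^ 2 = (1 + ((n + 1 : ℕ) : ℝ)) ^ 2 *
            ((q ^ (n + 1)) ^ 2 * (2 ^ (n + 1)) ^ (k / 2)) := by rw [h7, mul_one]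
        _ = (q ^ (n + 1) * (1 + ((n + 1 : ℕ) : ℝ))) ^ 2 * (2 ^ (n + 1)) ^ (k / 2) := by ring
        _ ≤ _ := mul_le_mul_of_nonneg_right h6 h8.le
    have h9 : ((2 : ℝ) ^ (n + 1)) ^ (k / 2) ≤ (2 * r₀) ^ (k / 2) * T ^ (k / 2) := by
      rw [← Real.mul_rpow (by positivity) hT0.le]
      apply Real.rpow_le_rpow (by positivity) _ (by positivity)
      rw [pow_succ]
      linarith
    calc C * (1 + ((n + 1 : ℕ) : ℝ)) ^ 2 ≤ C * (M₀ ^ 2 * ((2 * r₀) ^ (k / 2) * T ^ (k / 2))) := by
          apply mul_le_mul_of_nonneg_left _ hC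
          exact h4.trans (mul_le_mul_of_nonneg_left h9 (by positivity))
      _ = _ := by ring
  have hlim : Tendsto (fun T : ℝ => C * (M₀ ^ 2 * (2 * r₀) ^ (k / 2)) * T ^ (-(k / 2))) atTop
      (𝓝 0) := by
    have := (tendsto_rpow_neg_atTop (y := k / 2) (by positivity)).const_mul
      (C * (M₀ ^ 2 * (2 * r₀) ^ (k / 2)))
    rwa [mul_zero] at this
  refine squeeze_zero' ?_ ?_ hlim
  · filter_upwards [eventually_gt_atTop 0] with T hT
    refine mul_nonneg (by positivity) (integral_nonneg fun u => ?_)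
    simp only [Pi.zero_apply]
    positivity
  · filter_upwards [eventually_ge_atTop 1] with T hT
    have hT0 : 0 < T := by linarith
    calc _ ≤ T ^ (-k) * (C * (M₀ ^ 2 * (2 * r₀) ^ (k / 2)) * T ^ (k / 2)) :=
          mul_le_mul_of_nonneg_left (hb T hT) (by positivity)
      _ = C * (M₀ ^ 2 * (2 * r₀) ^ (k / 2)) * (T ^ (-k) * T ^ (k / 2)) := by ring
      _ = _ := by
          rw [← Real.rpow_add hT0]
          congr 2
          ring

/-- **the far part** -/
theorem far_small (h : LD L A r₀) (hk : 0 < k) {ℓ₀ : ℂ} {r : ℝ} (hr : 0 < r)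
    (hnear : ∀ s : ℂ, 0 < s.re → ‖s‖ < r → ‖L s - m * log s - ℓ₀‖ ≤ 1)
    (hlim : ∀ t : ℝ, Tendsto (fun T : ℝ => L (zz t / T) - m * log (zz t / T) - ℓ₀) atTop (𝓝 0)) :
    Tendsto (fun T : ℝ => ∫ t : ℝ, (L (zz t / T) - m * log (zz t / T) - ℓ₀) * Wk k t) atTop
      (𝓝 0) := by
  have hpi := Real.pi_pos
  set κ : ℝ := (m : ℝ) * (|Real.log r| + Real.pi) + ‖ℓ₀‖ + 1 with hκ
  have hκ0 : 0 ≤ κ := by positivity
  set g₀ : ℝ → ℝ := fun t => κ + m * ll t with hg₀
  set w : ℝ → ℝ := fun t => Real.exp 1 * wl k t with hw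
  have hw0 : ∀ t, 0 ≤ w t := fun t => by
    have := wl_nonneg k t
    rw [hw]; positivity
  have hg0 : ∀ t, 0 ≤ g₀ t := fun t => by
    have := ll_one t
    rw [hg₀]
    positivity
  set Dl : ℝ → ℝ → ℝ := fun T t => ‖L (zz t / T) - m * log (zz t / T) - ℓ₀‖ with hDl
  set K : ℝ := Real.exp 1 * (1 + 1 / r) ^ (k + 1) with hK
  have hK0 : 0 ≤ K := by positivity
  -- continuity
  have hcL : ∀ T : ℝ, 0 < T → Continuous fun t : ℝ => L (zz t / T) := by
    intro T hT
    have h1 := h.lcont (x := 1 / T) (by positivity)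
    have h2 : (fun t : ℝ => L (zz t / T)) = (fun t : ℝ => L (((1 / T : ℝ) : ℂ) + t * I)) ∘
        fun t => T⁻¹ * t := by
      funext t
      simp only [Function.comp_apply]
      rw [zz_div t hT]
    rw [h2]
    exact h1.comp (by fun_prop)
  have hcl : ∀ T : ℝ, 0 < T → Continuous fun t : ℝ => log (zz t / T) := by
    intro T hT
    refine Continuous.clog (zz_cont.div_const _) fun t => slit ?_
    rw [zz_div_re t hT]
    positivity
  have hcD : ∀ T : ℝ, 0 < T → Continuous fun t : ℝ => L (zz t / T) - m * log (zz t / T) - ℓ₀ :=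
    fun T hT => ((hcL T hT).sub (continuous_const.mul (hcl T hT))).sub continuous_const
  -- the pointwise bound
  have hpt : ∀ T : ℝ, 1 ≤ T → ∀ t : ℝ, Dl T t * w t ≤ min (Dl T t) (g₀ t) * w t +
      K * T ^ (-(k + 1)) * (‖L (zz t / T)‖ * (1 + |T⁻¹ * t|) ^ (-(1 + k))) := by
    intro T hT t
    have hT0 : 0 < T := by linarith
    have hTr : (zz t / T).re = 1 / T := zz_div_re t hT0
    have hsre : 0 < (zz t / T).re := by rw [hTr]; positivity
    have hsecond : 0 ≤ K * T ^ (-(k + 1)) * (‖L (zz t / T)‖ * (1 + |T⁻¹ * t|) ^ (-(1 + k))) := by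
      positivity
    have hl1 := ll_one t
    rcases lt_or_ge ‖zz t / T‖ r with hn | hn
    · have e1 := hnear _ hsre hn
      have e2 : Dl T t ≤ g₀ t := by
        refine e1.trans ?_
        rw [hg₀, hκ]
        have : 0 ≤ (m : ℝ) * ll t := by positivity
        have : 0 ≤ (m : ℝ) * (|Real.log r| + Real.pi) := by positivity
        have := norm_nonneg ℓ₀
        simp only
        linarith
      rw [min_eq_left e2]
      linarith
    · rcases le_total (Dl T t) (g₀ t) with e2 | e2
      · rw [min_eq_left e2]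
        linarith
      · rw [min_eq_right e2]
        have hsn : 0 < ‖zz t / T‖ := hr.trans_le hn
        have e3 : ‖log (zz t / T)‖ ≤ ll t + |Real.log r| + Real.pi := by
          have e4 : ‖log (zz t / T)‖ ≤ |Real.log ‖zz t / T‖| + |arg (zz t / T)| := by
            have := norm_le_abs_re_add_abs_im (log (zz t / T))
            rwa [Complex.log_re, Complex.log_im] at this
          have e5 := Complex.abs_arg_le_pi (zz t / T)
          have e6 : |Real.log ‖zz t / T‖| ≤ ll t + |Real.log r| := by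
            rw [abs_le]
            constructor
            · have e7 := Real.log_le_log hr hn
              have e8 := neg_abs_le (Real.log r)
              linarith
            · have e7 : Real.log ‖zz t / T‖ ≤ Real.log (1 + ‖zz t‖) := by
                apply Real.log_le_log hsn
                rw [norm_div, Complex.norm_real, Real.norm_eq_abs, abs_of_pos hT0]
                have := div_le_self (norm_nonneg (zz t)) hT
                linarith
              have e8 := abs_nonneg (Real.log r)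
              have e9 : Real.log (1 + ‖zz t‖) ≤ ll t := by unfold ll; linarith
              linarith
          linarith
        have e4 : Dl T t ≤ ‖L (zz t / T)‖ + g₀ t := by
          rw [hDl]
          simp only
          have e5 := norm_sub_le (L (zz t / T) - m * log (zz t / T)) ℓ₀
          have e6 := norm_sub_le (L (zz t / T)) (m * log (zz t / T))
          have e7 : ‖(m : ℂ) * log (zz t / T)‖ ≤ m * (ll t + |Real.log r| + Real.pi) := by
            rw [norm_mul, Complex.norm_natCast]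
            exact mul_le_mul_of_nonneg_left e3 (Nat.cast_nonneg _)
          rw [hg₀, hκ]
          simp only
          have e8 : (m : ℝ) * (ll t + |Real.log r| + Real.pi) =
            m * ll t + m * (|Real.log r| + Real.pi) := by ring
          linarith
        have e5 : ‖L (zz t / T)‖ * w t ≤ K * T ^ (-(k + 1)) *
            (‖L (zz t / T)‖ * (1 + |T⁻¹ * t|) ^ (-(1 + k))) := by
          have e6 := nb (z := zz t / T) hr (by linarith : 0 ≤ k + 1) hn
          rw [zz_div_im, show t / T = T⁻¹ * t from div_eq_inv_mul t T] at e6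
          have e7 : wl k t = T ^ (-(k + 1)) * ‖zz t / T‖ ^ (-(k + 1)) := by
            rw [← Real.mul_rpow hT0.le (norm_nonneg _)]
            unfold wl
            congr 1
            rw [norm_div, Complex.norm_real, Real.norm_eq_abs, abs_of_pos hT0]
            field_simp
          rw [hw, hK]
          simp only
          rw [e7]
          have e8 : (1 + |T⁻¹ * t|) ^ (-(k + 1)) = (1 + |T⁻¹ * t|) ^ (-(1 + k)) := by
            rw [add_comm k 1]
          rw [e8] at e6
          calc ‖L (zz t / T)‖ * (Real.exp 1 * (T ^ (-(k + 1)) * ‖zz t / T‖ ^ (-(k + 1)))) ≤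
                ‖L (zz t / T)‖ * (Real.exp 1 * (T ^ (-(k + 1)) * ((1 + 1 / r) ^ (k + 1) *
                  (1 + |T⁻¹ * t|) ^ (-(1 + k))))) := by gcongr
            _ = _ := by ring
        calc Dl T t * w t ≤ (‖L (zz t / T)‖ + g₀ t) * w t := mul_le_mul_of_nonneg_right e4 (hw0 t)
          _ = g₀ t * w t + ‖L (zz t / T)‖ * w t := by ring
          _ ≤ _ := by linarith
  -- integrability
  have hgi : Integrable fun t => g₀ t * w t := by
    refine int_of_ll hk (B := (κ + m) * Real.exp 1) ?_ fun t => ?_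
    · exact ((continuous_const.add (continuous_const.mul ll_cont)).mul
        (continuous_const.mul (wl_cont k))).aestronglyMeasurable
    · rw [abs_of_nonneg (mul_nonneg (hg0 t) (hw0 t)), hg₀, hw]
      simp only
      have h1 := ll_one t
      have h2 := wl_nonneg k t
      have h3 : κ + m * ll t ≤ (κ + m) * ll t := by nlinarith
      calc (κ + m * ll t) * (Real.exp 1 * wl k t) ≤ ((κ + m) * ll t) * (Real.exp 1 * wl k t) := by
            gcongr
        _ = _ := by ring
  have hmc : ∀ T : ℝ, 0 < T → Continuous fun t => min (Dl T t) (g₀ t) * w t := fun T hT =>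
    ((hcD T hT).norm.min (continuous_const.add (continuous_const.mul ll_cont))).mul
      (continuous_const.mul (wl_cont k))
  have hmb : ∀ T t, ‖min (Dl T t) (g₀ t) * w t‖ ≤ g₀ t * w t := fun T t => by
    have h1 : 0 ≤ min (Dl T t) (g₀ t) := le_min (norm_nonneg _) (hg0 t)
    rw [Real.norm_eq_abs, abs_of_nonneg (mul_nonneg h1 (hw0 t))]
    exact mul_le_mul_of_nonneg_right (min_le_right _ _) (hw0 t)
  have hmi : ∀ T : ℝ, 0 < T → Integrable fun t => min (Dl T t) (g₀ t) * w t := fun T hT =>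
    hgi.mono' (hmc T hT).aestronglyMeasurable (ae_of_all _ (hmb T))
  -- first limit
  have n1 : Tendsto (fun T : ℝ => ∫ t, min (Dl T t) (g₀ t) * w t) atTop (𝓝 (∫ _ : ℝ, (0 : ℝ))) := by
    refine tendsto_integral_filter_of_dominated_convergence (fun t => g₀ t * w t) ?_
      (Eventually.of_forall fun T => ae_of_all _ (hmb T)) hgi (ae_of_all _ fun t => ?_)
    · filter_upwards [eventually_gt_atTop 0] with T hT
      exact (hmc T hT).aestronglyMeasurable
    · have e1 : Tendsto (fun T : ℝ => Dl T t) atTop (𝓝 0) := by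
        have := (hlim t).norm
        rwa [norm_zero] at this
      have e2 : Tendsto (fun T : ℝ => min (Dl T t) (g₀ t)) atTop (𝓝 (min 0 (g₀ t))) :=
        e1.min tendsto_const_nhds
      rw [min_eq_left (hg0 t)] at e2
      have := e2.mul_const (w t)
      rwa [zero_mul] at this
  rw [integral_zero] at n1
  -- second limit
  have hsc : ∀ T : ℝ, 0 < T → (∫ t : ℝ, ‖L (zz t / T)‖ * (1 + |T⁻¹ * t|) ^ (-(1 + k))) =
      T * ∫ u : ℝ, ‖L (((1 / T : ℝ) : ℂ) + u * I)‖ * (1 + |u|) ^ (-(1 + k)) := by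
    intro T hT
    have h1 := Measure.integral_comp_mul_left
      (fun u : ℝ => ‖L (((1 / T : ℝ) : ℂ) + u * I)‖ * (1 + |u|) ^ (-(1 + k))) T⁻¹
    rw [inv_inv, abs_of_pos hT, smul_eq_mul] at h1
    rw [← h1]
    refine integral_congr_ae (ae_of_all _ fun t => ?_)
    beta_reduce
    rw [zz_div t hT]
  have hLi : ∀ T : ℝ, 0 < T → Integrable fun t : ℝ =>
      ‖L (zz t / T)‖ * (1 + |T⁻¹ * t|) ^ (-(1 + k)) := by
    intro T hT
    obtain ⟨B, hB, hBB⟩ := h.pow (x₀ := 1 / T) (by positivity) (ε := k / 2) (by positivity)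
    have h1 : Integrable fun u : ℝ => ‖L (((1 / T : ℝ) : ℂ) + u * I)‖ * (1 + |u|) ^ (-(1 + k)) := by
      refine ((decay_int (p := 1 + k / 2) (by linarith)).const_mul B).mono'
        ((h.lcont (by positivity)).norm.mul (Continuous.rpow_const (by fun_prop)
          fun t => Or.inl (by positivity))).aestronglyMeasurable (ae_of_all _ fun t => ?_)
      have h0 : 0 < 1 + |t| := by positivity
      have e1 := hBB (((1 / T : ℝ) : ℂ) + t * I) (by simp)
      have e2 : (((1 / T : ℝ) : ℂ) + t * I).im = t := by simp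
      rw [e2] at e1
      rw [norm_mul, norm_norm, Real.norm_eq_abs, abs_of_nonneg (by positivity)]
      calc _ ≤ (B * (1 + |t|) ^ (k / 2)) * (1 + |t|) ^ (-(1 + k)) :=
            mul_le_mul_of_nonneg_right e1 (by positivity)
        _ = B * ((1 + |t|) ^ (k / 2) * (1 + |t|) ^ (-(1 + k))) := by ring
        _ = _ := by
            rw [← Real.rpow_add h0]
            congr 2
            ring
    refine (h1.comp_mul_left' (R := T⁻¹) (by positivity)).congr (ae_of_all _ fun t => ?_)
    beta_reduce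
    rw [zz_div t hT]
  have n2 : Tendsto (fun T : ℝ => K * (T ^ (-k) *
      ∫ u : ℝ, ‖L (((1 / T : ℝ) : ℂ) + u * I)‖ * (1 + |u|) ^ (-(1 + k)))) atTop (𝓝 0) := by
    have := (h.small hk).const_mul K
    rwa [mul_zero] at this
  have n3 := n1.add n2
  rw [add_zero] at n3
  refine squeeze_zero_norm' ?_ n3
  filter_upwards [eventually_ge_atTop 1] with T hT
  have hT0 : 0 < T := by linarith
  refine (norm_integral_le_integral_norm _).trans ?_
  have e1 : ∀ t, ‖(L (zz t / T) - m * log (zz t / T) - ℓ₀) * Wk k t‖ = Dl T t * w t := by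
    intro t
    rw [norm_mul, norm_Wk]
  simp only [e1]
  have i2 := (hLi T hT0).const_mul (K * T ^ (-(k + 1)))
  have e2 : ∫ t, Dl T t * w t ≤ ∫ t, (min (Dl T t) (g₀ t) * w t +
      K * T ^ (-(k + 1)) * (‖L (zz t / T)‖ * (1 + |T⁻¹ * t|) ^ (-(1 + k)))) :=
    integral_mono_of_nonneg (ae_of_all _ fun t => mul_nonneg (norm_nonneg _) (hw0 t))
      ((hmi T hT0).add i2) (ae_of_all _ (hpt T hT))
  rw [integral_add (hmi T hT0) i2, integral_const_mul, hsc T hT0] at e2
  refine e2.trans (le_of_eq ?_)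
  have e3 : T ^ (-(k + 1)) * T = T ^ (-k) := by
    have := Real.rpow_add hT0 (-(k + 1)) 1
    rw [Real.rpow_one] at this
    rw [← this]
    congr 1
    ring
  rw [← e3]
  ring

end Pool.Agent.TH942.RZ
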