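import Pool.Agent.TH942.RZ.L1
import Pool.Agent.TH942.RZ.Log
import Pool.Agent.TH942.RZ.Ker
import Pool.Agent.TH942.SL.Mean

/-!
# Riesz means as integrals over vertical lines
-/

set_option autoImplicit false

open MeasureTheory Filter Topology Set Complex
open Pool.Agent.TH942.LS (Dat S)
open Pool.Agent.TH942.SL

namespace Pool.Agent.TH942.RZ

/-- the Riesz weight of order `k` -/
noncomputable def rzw (k u : ℝ) : ℝ := (max (1 - u) 0) ^ k

lemma rzw_scale {k T l : ℝ} (hT : 0 < T) : rzw k (l / T) * T ^ k = (max (T - l) 0) ^ k := by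
  unfold rzw
  rw [← Real.mul_rpow (le_max_right _ _) hT.le, max_mul_of_nonneg _ _ hT.le, zero_mul, sub_mul,
    one_mul, div_mul_cancel₀ _ hT.ne']

/-- the kernel -/
noncomputable def ks (k : ℝ) (s : ℂ) : ℂ := s ^ (-((k : ℂ) + 1))

lemma norm_ks (k : ℝ) (s : ℂ) : ‖ks k s‖ = ‖s‖ ^ (-(k + 1)) := by
  unfold ks
  have : (-((k : ℂ) + 1)) = ((-(k + 1) : ℝ) : ℂ) := by push_cast; ring
  rw [this, Complex.norm_cpow_real]

lemma ks_diff (k : ℝ) {s : ℂ} (hs : 0 < s.re) : DifferentiableAt ℂ (ks k) s :=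
  DifferentiableAt.cpow differentiableAt_id (differentiableAt_const _) (slit hs)

lemma norm_ks_le {k x : ℝ} (hk : 0 < k) (hx : 0 < x) {s : ℂ} (hs : x ≤ s.re) :
    ‖ks k s‖ ≤ (1 + 1 / x) ^ (k + 1) * (1 + |s.im|) ^ (-(k + 1)) := by
  rw [norm_ks]
  exact nb hx (by linarith) (hs.trans (re_le_norm s))

/-- change of scale in the kernel -/
lemma ks_scale (k : ℝ) {T : ℝ} (hT : 0 < T) {z : ℂ} (hz : z ≠ 0) :
    ks k (z / T) = ((T ^ (k + 1) : ℝ) : ℂ) * ks k z := by
  unfold ks
  have hTc : (T : ℂ) ≠ 0 := by exact_mod_cast hT.ne'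
  have e1 : z / T = ((T⁻¹ : ℝ) : ℂ) * z := by push_cast; field_simp
  have e2 : ((T⁻¹ : ℝ) : ℂ) * z ≠ 0 := by
    rw [← e1]; exact div_ne_zero hz hTc
  rw [e1, Complex.cpow_def_of_ne_zero e2, Complex.log_ofReal_mul (by positivity) hz,
    Complex.cpow_def_of_ne_zero hz, Real.rpow_def_of_pos hT, Complex.ofReal_exp, ← Complex.exp_add,
    Real.log_inv]
  congr 1
  push_cast
  ring

variable {lam c : ℕ → ℝ} {δ σ : ℝ}

/-- the exchange of sum and integral -/
theorem V_sum (D : Dat lam c δ σ) {k x : ℝ} (hk : 0 < k) (hx0 : 0 < x) (hx : σ ≤ x) (T : ℝ) :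
    V x (fun s => DD lam c s * (exp (s * T) * ks k s)) =
      ∑' n, ((c n * ((max (T - lam n) 0) ^ k / Real.Gamma (k + 1)) : ℝ) : ℂ) := by
  have hre : ∀ t : ℝ, ((x : ℂ) + t * I).re = x := fun t => by simp
  have him : ∀ t : ℝ, ((x : ℂ) + t * I).im = t := fun t => by simp
  set K : ℝ := (1 + 1 / x) ^ (k + 1) with hK
  have hK0 : 0 < K := Real.rpow_pos_of_pos (by positivity) _
  set F : ℕ → ℝ → ℂ := fun n t => (c n : ℂ) * exp (-(((x : ℂ) + t * I) * lam n)) *
    (exp (((x : ℂ) + t * I) * T) * ks k (x + t * I)) with hF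
  have hFn : ∀ n t, ‖F n t‖ = |c n| * Real.exp (-(x * lam n)) *
      (Real.exp (x * T) * ‖ks k (x + t * I)‖) := by
    intro n t
    rw [hF]
    simp only
    rw [norm_mul, dd_term, hre, norm_mul, Complex.norm_exp, Complex.re_mul_ofReal, hre]
  have hkc : Continuous fun t : ℝ => ks k (x + t * I) :=
    line_cont fun s hs => (ks_diff k (by rw [hs]; exact hx0)).continuousAt
  have hki : Integrable fun t : ℝ => ks k (x + t * I) :=
    line_int (p := k + 1) (B := K) (by linarith)
      (fun s hs => (ks_diff k (by rw [hs]; exact hx0)).continuousAt) fun s hs =>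
        norm_ks_le hk hx0 hs.ge
  have hFi : ∀ n, Integrable (F n) := by
    intro n
    refine Integrable.mono (g := fun t : ℝ => (((|c n| * Real.exp (-(x * lam n)) *
      Real.exp (x * T) : ℝ) : ℂ)) * ks k (x + t * I)) (hki.const_mul _) ?_ (ae_of_all _ fun t => ?_)
    · refine Continuous.aestronglyMeasurable ?_
      rw [hF]
      simp only
      exact Continuous.mul (by fun_prop) (Continuous.mul (by fun_prop) hkc)
    · rw [hFn, norm_mul, Complex.norm_real, Real.norm_eq_abs, abs_of_nonneg (show 0 ≤ |c n| *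
        Real.exp (-(x * lam n)) * Real.exp (x * T) by positivity)]
      exact le_of_eq (by ring)
  have hs1 : Summable fun n => |c n| * Real.exp (-(x * lam n)) := by
    refine Summable.of_nonneg_of_le (fun n => by positivity) (fun n => ?_) D.sum
    apply mul_le_mul_of_nonneg_left _ (abs_nonneg _)
    apply Real.exp_le_exp.2
    have := mul_le_mul_of_nonneg_right hx (D.lam0 n).le
    linarith
  have hsum : Summable fun n => ∫ t, ‖F n t‖ := by
    simp only [hFn]
    refine (hs1.mul_right (∫ t : ℝ, Real.exp (x * T) * ‖ks k (x + t * I)‖)).congr fun n => ?_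
    simp only [integral_const_mul]
  have key := hasSum_integral_of_summable_integral_norm hFi hsum
  unfold V
  have e1 : (fun t : ℝ => DD lam c (x + t * I) * (exp (((x : ℂ) + t * I) * T) *
      ks k (x + t * I))) = fun t => ∑' n, F n t := by
    funext t
    rw [hF]
    simp only
    unfold DD
    rw [tsum_mul_right]
  simp only at e1 ⊢
  rw [e1, ← key.tsum_eq, ← tsum_mul_left]
  refine tsum_congr fun n => ?_
  have e2 := V_riesz (k := k) hk hx0 (T - lam n)
  unfold V at e2
  have e3 : ∀ t : ℝ, F n t = (c n : ℂ) * (exp (((x : ℂ) + t * I) * ((T - lam n : ℝ) : ℂ)) *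
      ((x : ℂ) + t * I) ^ (-((k : ℂ) + 1))) := by
    intro t
    rw [hF]
    simp only
    unfold ks
    have e4 : exp (((x : ℂ) + t * I) * ((T - lam n : ℝ) : ℂ)) =
        exp (-(((x : ℂ) + t * I) * lam n)) * exp (((x : ℂ) + t * I) * T) := by
      rw [← Complex.exp_add]
      congr 1
      push_cast
      ring
    rw [e4]
    ring
  simp only [e3]
  rw [integral_const_mul, mul_left_comm, e2]
  push_cast
  ring

variable {E : ℂ → ℂ}

/-- **the Riesz mean as an integral over the line `Re z = 1`** -/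
theorem rep (D : Dat lam c δ σ) {k : ℝ} (hk : 0 < k) (hE : ∀ s : ℂ, 0 < s.re → DifferentiableAt ℂ E s)
    (hEq : ∀ s : ℂ, σ < s.re → E s = DD lam c s)
    (hEb : ∀ x : ℝ, 0 < x → ∃ B : ℝ, 0 ≤ B ∧ ∀ s : ℂ, x ≤ s.re → s.re ≤ σ + 1 →
      ‖E s‖ ≤ B * (1 + |s.im|) ^ (k / 2)) {T : ℝ} (hT : 0 < T) (hT1 : 1 / T ≤ σ + 1) :
    (S lam c (rzw k) T : ℂ) = Real.Gamma (k + 1) * V 1 (fun z => E (z / T) * (exp z * ks k z)) := by
  have hσ := D.σ0
  have hTc : (T : ℂ) ≠ 0 := by exact_mod_cast hT.ne'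
  have hG : 0 < Real.Gamma (k + 1) := Real.Gamma_pos_of_pos (by linarith)
  have hx0 : 0 < 1 / T := by positivity
  -- the shift
  obtain ⟨B, hB, hBB⟩ := hEb (1 / T) hx0
  set K : ℝ := (1 + 1 / (1 / T)) ^ (k + 1) with hK
  have hK0 : 0 < K := Real.rpow_pos_of_pos (by positivity) _
  have h1 : V (1 / T) (fun s => E s * (exp (s * T) * ks k s)) =
      V (σ + 1) (fun s => E s * (exp (s * T) * ks k s)) := by
    refine shift (p := 1 + k / 2) (B := B * (Real.exp ((σ + 1) * T) * K)) (by linarith) hT1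
      (fun s hs _ => ?_) fun s hs hs2 => ?_
    · have hs0 : 0 < s.re := hx0.trans_le hs
      exact (hE s hs0).mul (DifferentiableAt.mul (by fun_prop) (ks_diff k hs0))
    · rw [norm_mul, norm_mul, Complex.norm_exp, Complex.re_mul_ofReal]
      have h0 : 0 < 1 + |s.im| := by positivity
      have e1 : Real.exp (s.re * T) ≤ Real.exp ((σ + 1) * T) := by
        apply Real.exp_le_exp.2
        exact mul_le_mul_of_nonneg_right hs2 hT.le
      calc ‖E s‖ * (Real.exp (s.re * T) * ‖ks k s‖) ≤ (B * (1 + |s.im|) ^ (k / 2)) *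
            (Real.exp ((σ + 1) * T) * (K * (1 + |s.im|) ^ (-(k + 1)))) := by
            have := hBB s hs hs2
            have := norm_ks_le hk hx0 hs
            gcongr
        _ = B * (Real.exp ((σ + 1) * T) * K) * ((1 + |s.im|) ^ (k / 2) *
            (1 + |s.im|) ^ (-(k + 1))) := by ring
        _ = _ := by
            rw [← Real.rpow_add h0]
            congr 2
            ring
  have h2 : V (σ + 1) (fun s => E s * (exp (s * T) * ks k s)) =
      V (σ + 1) (fun s => DD lam c s * (exp (s * T) * ks k s)) := by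
    unfold V
    congr 1
    refine integral_congr_ae (ae_of_all _ fun t => ?_)
    beta_reduce
    rw [hEq _ (by simp)]
  rw [h2, V_sum D hk (by positivity) (by linarith) T, V_scale hT, one_div_mul_cancel hT.ne'] at h1
  have h3 : V 1 (fun z => E (z / T) * (exp (z / T * T) * ks k (z / T)) / T) =
      ((T ^ k : ℝ) : ℂ) * V 1 (fun z => E (z / T) * (exp z * ks k z)) := by
    unfold V
    rw [mul_left_comm]
    congr 1
    rw [← integral_const_mul]
    refine integral_congr_ae (ae_of_all _ fun t => ?_)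
    beta_reduce
    have hz : ((1 : ℝ) : ℂ) + t * I ≠ 0 := fun h => by
      have := congrArg Complex.re h
      simp at this
    rw [ks_scale k hT hz, div_mul_cancel₀ _ hTc, Real.rpow_add hT, Real.rpow_one]
    push_cast
    field_simp
  rw [h3] at h1
  have h4 : ∀ n, ((c n * ((max (T - lam n) 0) ^ k / Real.Gamma (k + 1)) : ℝ) : ℂ) =
      ((T ^ k / Real.Gamma (k + 1) : ℝ) : ℂ) * ((c n * rzw k (lam n / T) : ℝ) : ℂ) := by
    intro n
    rw [← rzw_scale hT]
    push_cast
    ring
  simp only [h4] at h1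
  rw [tsum_mul_left] at h1
  have hTk : 0 < T ^ k := Real.rpow_pos_of_pos hT k
  have hTkc : ((T ^ k : ℝ) : ℂ) ≠ 0 := by exact_mod_cast hTk.ne'
  have hGc : ((Real.Gamma (k + 1) : ℝ) : ℂ) ≠ 0 := by exact_mod_cast hG.ne'
  have h5 : (S lam c (rzw k) T : ℂ) = ∑' n, ((c n * rzw k (lam n / T) : ℝ) : ℂ) := by
    unfold S
    rw [Complex.ofReal_tsum]
  rw [h5]
  rw [Complex.ofReal_div, div_mul_eq_mul_div, mul_div_assoc] at h1
  have h6 := mul_left_cancel₀ hTkc h1
  rw [h6, mul_div_cancel₀ _ hGc]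

end Pool.Agent.TH942.RZ
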